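import Mathlib

/-! Pooling programs: the second order analysis at zero. -/

namespace Pool.Agent.W941.VP.PL

open MvPolynomial Finset

set_option linter.unusedSectionVars false
set_option linter.unusedVariables false
set_option autoImplicit false

/-- Pooling programs for polynomials in the entries of an `n × n` matrix, as the list of the pooled
polynomials (the last one first). A pooling step adds the polynomial `∑ i, q (row i, l)`, where
`q` is any polynomial in the `n` entries of one row and in the polynomials pooled before. -/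
inductive Pooled (n : ℕ) : List (MvPolynomial (Fin n × Fin n) ℂ) → Prop
  | nil : Pooled n []
  | cons (l : List (MvPolynomial (Fin n × Fin n) ℂ)) (q : MvPolynomial (Fin n ⊕ ℕ) ℂ) :
      Pooled n l →
      Pooled n ((∑ i : Fin n, aeval (Sum.elim (fun j => X (i, j)) fun k => l.getD k 0) q) :: l)

/-! ### the ring -/

/-- the ring `ℂ[u, v] / (u ^ 2, v ^ 2)` -/
abbrev D := DualNumber (DualNumber ℂ)

def c0 (x : D) : ℂ := x.fst.fst
def cu (x : D) : ℂ := x.snd.fst
def cv (x : D) : ℂ := x.fst.snd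
def cw (x : D) : ℂ := x.snd.snd

theorem D_ext {x y : D} (h0 : c0 x = c0 y) (hu : cu x = cu y) (hv : cv x = cv y)
    (hw : cw x = cw y) : x = y :=
  TrivSqZeroExt.ext (TrivSqZeroExt.ext h0 hv) (TrivSqZeroExt.ext hu hw)

def du : D := TrivSqZeroExt.inr 1
def dv : D := TrivSqZeroExt.inl (TrivSqZeroExt.inr 1)

@[simp] theorem c0_add (x y : D) : c0 (x + y) = c0 x + c0 y := rfl
@[simp] theorem cu_add (x y : D) : cu (x + y) = cu x + cu y := rfl
@[simp] theorem cv_add (x y : D) : cv (x + y) = cv x + cv y := rfl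
@[simp] theorem cw_add (x y : D) : cw (x + y) = cw x + cw y := rfl

@[simp] theorem c0_mul (x y : D) : c0 (x * y) = c0 x * c0 y := by
  simp [c0]
@[simp] theorem cu_mul (x y : D) : cu (x * y) = c0 x * cu y + cu x * c0 y := by
  simp [c0, cu, DualNumber.snd_mul]; try ring
@[simp] theorem cv_mul (x y : D) : cv (x * y) = c0 x * cv y + cv x * c0 y := by
  simp [c0, cv, DualNumber.snd_mul]; try ring
@[simp] theorem cw_mul (x y : D) : cw (x * y) =
    c0 x * cw y + cu x * cv y + cv x * cu y + cw x * c0 y := by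
  simp [c0, cu, cv, cw, DualNumber.snd_mul]; ring

@[simp] theorem c0_alg (a : ℂ) : c0 (algebraMap ℂ D a) = a := rfl
@[simp] theorem cu_alg (a : ℂ) : cu (algebraMap ℂ D a) = 0 := rfl
@[simp] theorem cv_alg (a : ℂ) : cv (algebraMap ℂ D a) = 0 := rfl
@[simp] theorem cw_alg (a : ℂ) : cw (algebraMap ℂ D a) = 0 := rfl

@[simp] theorem c0_du : c0 du = 0 := rfl
@[simp] theorem cu_du : cu du = 1 := rfl
@[simp] theorem cv_du : cv du = 0 := rfl
@[simp] theorem cw_du : cw du = 0 := rfl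
@[simp] theorem c0_dv : c0 dv = 0 := rfl
@[simp] theorem cu_dv : cu dv = 0 := rfl
@[simp] theorem cv_dv : cv dv = 1 := rfl
@[simp] theorem cw_dv : cw dv = 0 := rfl

theorem du_sq : du * du = 0 := D_ext (by simp; rfl) (by simp; rfl) (by simp; rfl) (by simp; rfl)
theorem dv_sq : dv * dv = 0 := D_ext (by simp; rfl) (by simp; rfl) (by simp; rfl) (by simp; rfl)

/-! ### good families -/

section good

variable {T : Type}

/-- families whose second order part is controlled by the space `V` -/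
structure Good (V : Submodule ℂ (T → ℂ)) (z : T → T → D) : Prop where
  out : ∃ (a : ℂ) (φ : T → ℂ) (M₁ M₂ : T → T → ℂ), φ ∈ V ∧ (∀ C, (fun B => M₁ B C) ∈ V) ∧
    (∀ B, (fun C => M₂ B C) ∈ V) ∧ ∀ B C, c0 (z B C) = a ∧ cu (z B C) = φ B ∧
      cv (z B C) = φ C ∧ cw (z B C) = M₁ B C + M₂ B C

theorem Good.mono {V V' : Submodule ℂ (T → ℂ)} (h : V ≤ V') {z : T → T → D} (hz : Good V z) :
    Good V' z := by
  obtain ⟨a, φ, M₁, M₂, h1, h2, h3, h4⟩ := hz.out
  exact ⟨a, φ, M₁, M₂, h h1, fun C => h (h2 C), fun B => h (h3 B), h4⟩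

theorem Good.const (V : Submodule ℂ (T → ℂ)) (a : ℂ) :
    Good V (fun _ _ => algebraMap ℂ D a) :=
  ⟨a, 0, 0, 0, V.zero_mem, fun _ => V.zero_mem, fun _ => V.zero_mem, fun B C => by simp⟩

theorem Good.add {V : Submodule ℂ (T → ℂ)} {z z' : T → T → D} (hz : Good V z) (hz' : Good V z') :
    Good V (fun B C => z B C + z' B C) := by
  obtain ⟨a, φ, M₁, M₂, h1, h2, h3, h4⟩ := hz.out
  obtain ⟨a', φ', M₁', M₂', h1', h2', h3', h4'⟩ := hz'.out
  refine ⟨a + a', φ + φ', fun B C => M₁ B C + M₁' B C, fun B C => M₂ B C + M₂' B C,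
    V.add_mem h1 h1', fun C => V.add_mem (h2 C) (h2' C), fun B => V.add_mem (h3 B) (h3' B),
    fun B C => ?_⟩
  obtain ⟨e1, e2, e3, e4⟩ := h4 B C
  obtain ⟨e1', e2', e3', e4'⟩ := h4' B C
  refine ⟨by simp [e1, e1'], by simp [e2, e2'], by simp [e3, e3'], ?_⟩
  rw [cw_add, e4, e4']; ring

theorem Good.mul {V : Submodule ℂ (T → ℂ)} {z z' : T → T → D} (hz : Good V z) (hz' : Good V z') :
    Good V (fun B C => z B C * z' B C) := by
  obtain ⟨a, φ, M₁, M₂, h1, h2, h3, h4⟩ := hz.out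
  obtain ⟨a', φ', M₁', M₂', h1', h2', h3', h4'⟩ := hz'.out
  refine ⟨a * a', a • φ' + a' • φ,
    fun B C => a * M₁' B C + a' * M₁ B C + φ' C * φ B,
    fun B C => a * M₂' B C + a' * M₂ B C + φ' B * φ C,
    V.add_mem (V.smul_mem _ h1') (V.smul_mem _ h1),
    fun C => V.add_mem (V.add_mem (V.smul_mem a (h2' C)) (V.smul_mem a' (h2 C)))
      (V.smul_mem (φ' C) h1),
    fun B => V.add_mem (V.add_mem (V.smul_mem a (h3' B)) (V.smul_mem a' (h3 B)))
      (V.smul_mem (φ' B) h1), fun B C => ?_⟩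
  obtain ⟨e1, e2, e3, e4⟩ := h4 B C
  obtain ⟨e1', e2', e3', e4'⟩ := h4' B C
  refine ⟨by rw [c0_mul, e1, e1'], ?_, ?_, ?_⟩
  · rw [cu_mul, e1, e1', e2, e2']
    simp only [Pi.add_apply, Pi.smul_apply, smul_eq_mul]; ring
  · rw [cv_mul, e1, e1', e3, e3']
    simp only [Pi.add_apply, Pi.smul_apply, smul_eq_mul]; ring
  · rw [cw_mul, e1, e1', e2, e2', e3, e3', e4, e4']; ring

theorem Good.aeval {V : Submodule ℂ (T → ℂ)} {z : ℕ → T → T → D} (hz : ∀ k, Good V (z k))
    (g : MvPolynomial ℕ ℂ) : Good V (fun B C => MvPolynomial.aeval (fun k => z k B C) g) := by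
  induction g using MvPolynomial.induction_on with
  | C a =>
    have : (fun B C => MvPolynomial.aeval (fun k => z k B C) (MvPolynomial.C a : MvPolynomial ℕ ℂ))
        = fun (_ _ : T) => algebraMap ℂ D a := by
      funext B C; simp
    rw [this]; exact Good.const V a
  | add p q hp hq =>
    have := hp.add hq
    simpa only [map_add] using this
  | mul_X p k hp =>
    have := hp.mul (hz k)
    simpa only [map_mul, aeval_X] using this

/-- the pooling step in the ring `D` -/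
noncomputable def step (g0 : MvPolynomial ℕ ℂ) (g : T → MvPolynomial ℕ ℂ) (w : T → ℂ) (n : ℂ)
    (z : ℕ → T → T → D) : T → T → D := fun B C =>
  algebraMap ℂ D n * MvPolynomial.aeval (fun k => z k B C) g0 +
    (algebraMap ℂ D (w B) * (du * MvPolynomial.aeval (fun k => z k B C) (g B)) +
      algebraMap ℂ D (w C) * (dv * MvPolynomial.aeval (fun k => z k B C) (g C)))

theorem Good.step {V : Submodule ℂ (T → ℂ)} {z : ℕ → T → T → D} (hz : ∀ k, Good V (z k))
    (g0 : MvPolynomial ℕ ℂ) (g : T → MvPolynomial ℕ ℂ) (w : T → ℂ) (n : ℂ) :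
    ∃ ψ : T → ℂ, Good (V ⊔ ℂ ∙ ψ) (step g0 g w n z) := by
  have h0 := (Good.const V n).mul (Good.aeval hz g0)
  have hg := fun A => (Good.aeval hz (g A)).out
  choose a φ M₁ M₂ h1 h2 h3 h4 using hg
  refine ⟨fun B => w B * a B, ?_⟩
  obtain ⟨a', φ', M₁', M₂', h1', h2', h3', h4'⟩ := h0.out
  have hV : V ≤ V ⊔ ℂ ∙ (fun B => w B * a B) := le_sup_left
  refine ⟨a', fun B => φ' B + w B * a B, fun B C => M₁' B C + w C * φ C B,
    fun B C => M₂' B C + w B * φ B C, ?_, ?_, ?_, ?_⟩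
  · exact Submodule.add_mem_sup h1' (Submodule.mem_span_singleton_self _)
  · exact fun C => hV (V.add_mem (h2' C) (V.smul_mem (w C) (h1 C)))
  · exact fun B => hV (V.add_mem (h3' B) (V.smul_mem (w B) (h1 B)))
  · intro B C
    obtain ⟨e1, e2, e3, e4⟩ := h4' B C
    obtain ⟨f1, f2, f3, f4⟩ := h4 B B C
    obtain ⟨k1, k2, k3, k4⟩ := h4 C B C
    unfold PL.step
    refine ⟨?_, ?_, ?_, ?_⟩
    · rw [c0_add, e1]; simp
    · rw [cu_add, e2]; simp [f1]
    · rw [cv_add, e3]; simp [k1]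
    · rw [cw_add, e4]; simp [f3, k2]; ring

end good

end Pool.Agent.W941.VP.PL
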