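import Mathlib
import Pool.Agent.W941.VP.Pool1

/-! Pooling programs: evaluation at matrices of roots of unity. -/

namespace Pool.Agent.W941.VP.PL

open MvPolynomial Finset

set_option linter.unusedSectionVars false
set_option linter.unusedVariables false
set_option autoImplicit false

variable {n : ℕ}

/-- the row polynomial along the vector `t 1_B` -/
noncomputable def GB (B : Finset (Fin n)) (q : MvPolynomial (Fin n ⊕ ℕ) ℂ) :
    Polynomial (MvPolynomial ℕ ℂ) :=
  MvPolynomial.aeval (Sum.elim (fun j => if j ∈ B then Polynomial.X else 0)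
    fun k => Polynomial.C (X k)) q

/-- the value at the zero row -/
noncomputable def g0 (q : MvPolynomial (Fin n ⊕ ℕ) ℂ) : MvPolynomial ℕ ℂ :=
  MvPolynomial.aeval (Sum.elim (fun _ => 0) X) q

/-- the coefficient -/
noncomputable def gB (q : MvPolynomial (Fin n ⊕ ℕ) ℂ) (B : Finset (Fin n)) : MvPolynomial ℕ ℂ :=
  (GB B q).coeff B.card

theorem GB_coeff_zero (B : Finset (Fin n)) (q : MvPolynomial (Fin n ⊕ ℕ) ℂ) :
    (GB B q).coeff 0 = g0 q := by
  have : (Polynomial.constantCoeff : Polynomial (MvPolynomial ℕ ℂ) →+* _).comp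
      (MvPolynomial.aeval (Sum.elim (fun j => if j ∈ B then Polynomial.X else 0)
        fun k => Polynomial.C (X k)) : MvPolynomial (Fin n ⊕ ℕ) ℂ →ₐ[ℂ] _).toRingHom =
      (MvPolynomial.aeval (Sum.elim (fun _ => 0) X) : MvPolynomial (Fin n ⊕ ℕ) ℂ →ₐ[ℂ] _).toRingHom
      := by
    refine MvPolynomial.ringHom_ext (fun a => ?_) fun i => ?_
    · simp [Polynomial.algebraMap_apply, MvPolynomial.algebraMap_eq]
    · rcases i with j | k
      · by_cases hj : j ∈ B <;> simp [hj]
      · simp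
  exact congrArg (fun φ => φ q) this

section

variable {A : Type} [CommRing A] [Algebra ℂ A] (ι : D →ₐ[ℂ] A)

theorem row_eval (B : Finset (Fin n)) (q : MvPolynomial (Fin n ⊕ ℕ) ℂ) (z : ℕ → D) (t : A) :
    MvPolynomial.aeval (Sum.elim (fun j => if j ∈ B then t else 0) fun k => ι (z k)) q =
      (GB B q).eval₂ ((ι : D →+* A).comp (MvPolynomial.aeval z : MvPolynomial ℕ ℂ →ₐ[ℂ] D).toRingHom) t := by
  have : (MvPolynomial.aeval (Sum.elim (fun j => if j ∈ B then t else 0) fun k => ι (z k)) :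
      MvPolynomial (Fin n ⊕ ℕ) ℂ →ₐ[ℂ] A).toRingHom = (Polynomial.eval₂RingHom
      ((ι : D →+* A).comp (MvPolynomial.aeval z : MvPolynomial ℕ ℂ →ₐ[ℂ] D).toRingHom) t).comp
      (MvPolynomial.aeval (Sum.elim (fun j => if j ∈ B then Polynomial.X else 0)
        fun k => Polynomial.C (X k)) : MvPolynomial (Fin n ⊕ ℕ) ℂ →ₐ[ℂ] _).toRingHom := by
    refine MvPolynomial.ringHom_ext (fun a => ?_) fun i => ?_
    · simp [Polynomial.algebraMap_apply, MvPolynomial.algebraMap_eq]
    · rcases i with j | k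
      · by_cases hj : j ∈ B <;> simp [hj]
      · simp
  exact congrArg (fun φ => φ q) this

theorem zero_eval (q : MvPolynomial (Fin n ⊕ ℕ) ℂ) (z : ℕ → D) :
    MvPolynomial.aeval (Sum.elim (fun _ => (0 : A)) fun k => ι (z k)) q =
      ι (MvPolynomial.aeval z (g0 q)) := by
  have : (MvPolynomial.aeval (Sum.elim (fun _ => (0 : A)) fun k => ι (z k)) :
      MvPolynomial (Fin n ⊕ ℕ) ℂ →ₐ[ℂ] A) = ι.comp ((MvPolynomial.aeval z).comp
      (MvPolynomial.aeval (Sum.elim (fun _ => 0) X))) := by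
    refine MvPolynomial.algHom_ext fun i => ?_
    rcases i with j | k <;> simp
  exact congrArg (fun φ => φ q) this

theorem root_sum {b : ℕ} (hb : 0 < b) {ω : ℂ} (hω : IsPrimitiveRoot ω b) (m : ℕ) :
    ∑ i ∈ range b, (ω ^ i) ^ m = if b ∣ m then (b : ℂ) else 0 := by
  by_cases h : b ∣ m
  · rw [if_pos h]
    have : ∀ i ∈ range b, (ω ^ i) ^ m = 1 := by
      intro i _
      rw [← pow_mul, mul_comm, pow_mul, (hω.pow_eq_one_iff_dvd m).2 h, one_pow]
    rw [Finset.sum_congr rfl this]; simp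
  · rw [if_neg h]
    have h1 : ω ^ m ≠ 1 := fun h' => h ((hω.pow_eq_one_iff_dvd m).1 h')
    have h2 : ∀ i ∈ range b, (ω ^ i) ^ m = (ω ^ m) ^ i := by
      intro i _; rw [← pow_mul, ← pow_mul, mul_comm]
    rw [Finset.sum_congr rfl h2]
    have h3 := mul_geom_sum (ω ^ m) b
    rw [← pow_mul, mul_comm m b, pow_mul, hω.pow_eq_one, one_pow, sub_self] at h3
    exact (mul_eq_zero.1 h3).resolve_left (sub_ne_zero.2 h1)

/-- a block of rows -/
theorem block_sum (B : Finset (Fin n)) (b : ℕ) (hb : b = B.card) {ω : ℂ}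
    (hω : 0 < b → IsPrimitiveRoot ω b) (u : D) (hu : u * u = 0) (τ : A)
    (hτ : 0 < b → τ ^ b = ι u) (q : MvPolynomial (Fin n ⊕ ℕ) ℂ) (z : ℕ → D) :
    ∑ i ∈ range b, MvPolynomial.aeval
        (Sum.elim (fun j => if j ∈ B then algebraMap ℂ A (ω ^ i) * τ else 0) fun k => ι (z k)) q =
      (b : A) * ι (MvPolynomial.aeval z (g0 q)) +
        ι (algebraMap ℂ D (b : ℂ) * (u * MvPolynomial.aeval z (gB q B))) := by
  rcases Nat.eq_zero_or_pos b with h0 | h0
  · rw [h0]; simp
  have hω' := hω h0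
  have hτ' := hτ h0
  set f := (ι : D →+* A).comp (MvPolynomial.aeval z : MvPolynomial ℕ ℂ →ₐ[ℂ] D).toRingHom with hf
  set N := max ((GB B q).natDegree + 1) (b + 1) with hN
  have h1 : ∀ i ∈ range b, MvPolynomial.aeval
      (Sum.elim (fun j => if j ∈ B then algebraMap ℂ A (ω ^ i) * τ else 0) fun k => ι (z k)) q =
      ∑ m ∈ range N, f ((GB B q).coeff m) * τ ^ m * algebraMap ℂ A ((ω ^ i) ^ m) := by
    intro i _
    rw [row_eval, Polynomial.eval₂_eq_sum_range' _ (show (GB B q).natDegree < N by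
      rw [hN]; omega)]
    refine Finset.sum_congr rfl fun m _ => ?_
    rw [mul_pow, ← map_pow, ← hf]; ring
  rw [Finset.sum_congr rfl h1, Finset.sum_comm]
  have h2 : ∀ m ∈ range N, ∑ i ∈ range b, f ((GB B q).coeff m) * τ ^ m *
      algebraMap ℂ A ((ω ^ i) ^ m) = f ((GB B q).coeff m) * τ ^ m *
      algebraMap ℂ A (if b ∣ m then (b : ℂ) else 0) := by
    intro m _
    rw [← Finset.mul_sum, ← map_sum, root_sum h0 hω']
  rw [Finset.sum_congr rfl h2, Finset.sum_eq_add 0 b (by omega)]
  · rw [if_pos (dvd_zero _), if_pos dvd_rfl, pow_zero, mul_one, GB_coeff_zero, hτ']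
    have h3 : f (g0 q) = ι (MvPolynomial.aeval z (g0 q)) := rfl
    have h4 : f ((GB B q).coeff b) = ι (MvPolynomial.aeval z (gB q B)) := by
      rw [hb]; rfl
    rw [h3, h4]
    simp only [map_mul, AlgHom.commutes, map_natCast]
    ring
  · intro m _ hm
    by_cases hd : b ∣ m
    · obtain ⟨k, rfl⟩ := hd
      have hk : 2 ≤ k := by
        rcases k with _ | _ | k
        · exact absurd (mul_zero b) hm.1
        · exact absurd (mul_one b) hm.2
        · omega
      have : τ ^ (b * k) = 0 := by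
        obtain ⟨k', rfl⟩ : ∃ k', k = k' + 2 := ⟨k - 2, by omega⟩
        rw [pow_mul, hτ', ← map_pow, pow_add, pow_two, hu, mul_zero, map_zero]
      rw [this]; ring
    · rw [if_neg hd, map_zero, mul_zero]
  · intro h; exact absurd (mem_range.2 (by rw [hN]; omega)) h
  · intro h; exact absurd (mem_range.2 (by rw [hN]; omega)) h

/-- the test matrix -/
noncomputable def XX (B C : Finset (Fin n)) (ω ω' : ℂ) (τ τ' : A) (i : ℕ) (j : Fin n) : A :=
  if i < B.card then (if j ∈ B then algebraMap ℂ A (ω ^ i) * τ else 0)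
  else if i < B.card + C.card then (if j ∈ C then algebraMap ℂ A (ω' ^ (i - B.card)) * τ' else 0)
  else 0

/-- a pooling step at the test matrix -/
theorem pool_eval (B C : Finset (Fin n)) (hBC : B.card + C.card ≤ n) {ω ω' : ℂ}
    (hω : 0 < B.card → IsPrimitiveRoot ω B.card) (hω' : 0 < C.card → IsPrimitiveRoot ω' C.card)
    (τ τ' : A) (hτ : 0 < B.card → τ ^ B.card = ι du) (hτ' : 0 < C.card → τ' ^ C.card = ι dv)
    (q : MvPolynomial (Fin n ⊕ ℕ) ℂ) (z : ℕ → D) :
    ∑ i : Fin n, MvPolynomial.aeval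
        (Sum.elim (fun j => XX B C ω ω' τ τ' i j) fun k => ι (z k)) q =
      ι (algebraMap ℂ D (n : ℂ) * MvPolynomial.aeval z (g0 q) +
        (algebraMap ℂ D (B.card : ℂ) * (du * MvPolynomial.aeval z (gB q B)) +
          algebraMap ℂ D (C.card : ℂ) * (dv * MvPolynomial.aeval z (gB q C)))) := by
  rw [Fin.sum_univ_eq_sum_range (fun i => MvPolynomial.aeval
    (Sum.elim (fun j => XX B C ω ω' τ τ' i j) fun k => ι (z k)) q) n]
  obtain ⟨r, hr⟩ := Nat.exists_eq_add_of_le hBC
  have hs : ∀ F : ℕ → A, ∑ i ∈ range n, F i = ∑ i ∈ range B.card, F i +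
      ∑ i ∈ range C.card, F (B.card + i) + ∑ i ∈ range r, F (B.card + C.card + i) := by
    intro F
    rw [show range n = range (B.card + C.card + r) by rw [← hr], Finset.sum_range_add,
      Finset.sum_range_add]
  have hn : (n : ℂ) = B.card + C.card + r := by
    have := congrArg (fun k : ℕ => (k : ℂ)) hr
    push_cast at this
    exact this
  rw [hs, hn]
  have h1 : ∑ i ∈ range B.card, MvPolynomial.aeval
      (Sum.elim (fun j => XX B C ω ω' τ τ' i j) fun k => ι (z k)) q =
      ∑ i ∈ range B.card, MvPolynomial.aeval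
        (Sum.elim (fun j => if j ∈ B then algebraMap ℂ A (ω ^ i) * τ else 0)
          fun k => ι (z k)) q := by
    refine Finset.sum_congr rfl fun i hi => ?_
    have : (fun j => XX B C ω ω' τ τ' i j) = fun j =>
        if j ∈ B then algebraMap ℂ A (ω ^ i) * τ else 0 := by
      funext j; unfold XX; rw [if_pos (mem_range.1 hi)]
    rw [this]
  have h2 : ∑ i ∈ range C.card, MvPolynomial.aeval
      (Sum.elim (fun j => XX B C ω ω' τ τ' (B.card + i) j) fun k => ι (z k)) q =
      ∑ i ∈ range C.card, MvPolynomial.aeval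
        (Sum.elim (fun j => if j ∈ C then algebraMap ℂ A (ω' ^ i) * τ' else 0)
          fun k => ι (z k)) q := by
    refine Finset.sum_congr rfl fun i hi => ?_
    have : (fun j => XX B C ω ω' τ τ' (B.card + i) j) = fun j =>
        if j ∈ C then algebraMap ℂ A (ω' ^ i) * τ' else 0 := by
      funext j; unfold XX
      rw [if_neg (by omega), if_pos (by have := mem_range.1 hi; omega), Nat.add_sub_cancel_left]
    rw [this]
  have h3 : ∑ i ∈ range r, MvPolynomial.aeval
      (Sum.elim (fun j => XX B C ω ω' τ τ' (B.card + C.card + i) j) fun k => ι (z k)) q =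
      (r : A) * ι (MvPolynomial.aeval z (g0 q)) := by
    have : ∀ i ∈ range r, MvPolynomial.aeval
        (Sum.elim (fun j => XX B C ω ω' τ τ' (B.card + C.card + i) j) fun k => ι (z k)) q =
        ι (MvPolynomial.aeval z (g0 q)) := by
      intro i _
      have : (fun j : Fin n => XX B C ω ω' τ τ' (B.card + C.card + i) j) = fun _ => 0 := by
        funext j; unfold XX; rw [if_neg (by omega), if_neg (by omega)]
      rw [this, zero_eval]
    rw [Finset.sum_congr rfl this, Finset.sum_const, card_range, nsmul_eq_mul]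
  rw [h1, h2, h3, block_sum ι B B.card rfl hω du du_sq τ hτ q z,
    block_sum ι C C.card rfl hω' dv dv_sq τ' hτ' q z]
  simp only [map_add, map_mul, AlgHom.commutes, map_natCast, Nat.cast_add]
  ring

end

/-- roots exist in extensions -/
theorem exists_root (R : Type) [CommRing R] [Nontrivial R] [Algebra ℂ R] (u : R) (b : ℕ)
    (hb : 0 < b) :
    ∃ (A : Type) (_ : CommRing A) (_ : Algebra ℂ A) (f : R →ₐ[ℂ] A) (τ : A),
      Function.Injective f ∧ τ ^ b = f u := by
  let p : Polynomial R := Polynomial.X ^ b - Polynomial.C u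
  have hp : p.Monic := Polynomial.monic_X_pow_sub_C u hb.ne'
  refine ⟨AdjoinRoot p, inferInstance, inferInstance,
    { AdjoinRoot.of p with commutes' := fun a => rfl }, AdjoinRoot.root p, ?_, ?_⟩
  · rw [← AlgHom.coe_toRingHom, injective_iff_map_eq_zero]
    intro a ha
    have h1 : AdjoinRoot.mk p (Polynomial.C a) = 0 := ha
    rw [AdjoinRoot.mk_eq_zero] at h1
    by_contra hne
    refine hp.not_dvd_of_degree_lt (Polynomial.C_ne_zero.2 hne) ?_ h1
    rw [Polynomial.degree_C hne, Polynomial.degree_X_pow_sub_C hb]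
    exact_mod_cast hb
  · have h1 : AdjoinRoot.mk p p = 0 := AdjoinRoot.mk_self
    have h2 : AdjoinRoot.mk p p = AdjoinRoot.root p ^ b - AdjoinRoot.of p u := by
      simp only [p, map_sub, map_pow, AdjoinRoot.mk_X, AdjoinRoot.mk_C]
    rw [h2, sub_eq_zero] at h1
    exact h1

end Pool.Agent.W941.VP.PL
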