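import Mathlib
import Pool.Agent.W941.VP.Pool2

/-! Pooling programs: the lower bound. -/

namespace Pool.Agent.W941.VP.PL

open MvPolynomial Finset

set_option linter.unusedSectionVars false
set_option linter.unusedVariables false
set_option autoImplicit false

variable {n : ℕ}

/-- The generic permanent. -/
noncomputable def perm (n : ℕ) : MvPolynomial (Fin n × Fin n) ℂ :=
  Matrix.permanent (Matrix.of fun i j => X (i, j))

theorem aeval_comp {σ τ : Type} {A B : Type} [CommRing A] [Algebra ℂ A] [CommRing B] [Algebra ℂ B]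
    (f : σ → A) (φ : A →ₐ[ℂ] B) (p : MvPolynomial σ ℂ) :
    φ (MvPolynomial.aeval f p) = MvPolynomial.aeval (fun i => φ (f i)) p := by
  have : φ.comp (MvPolynomial.aeval f) = MvPolynomial.aeval (fun i => φ (f i)) :=
    MvPolynomial.algHom_ext fun i => by simp
  exact congrArg (fun ψ => ψ p) this

/-- the structure theorem -/
theorem struct (l : List (MvPolynomial (Fin n × Fin n) ℂ)) (h : Pooled n l) :
    ∃ (z : ℕ → Finset (Fin n) → Finset (Fin n) → D) (V : Submodule ℂ (Finset (Fin n) → ℂ)),
      Module.finrank ℂ V ≤ l.length ∧ (∀ k, Good V (z k)) ∧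
      ∀ B C : Finset (Fin n), B.card + C.card ≤ n → ∀ (A : Type) [CommRing A] [Algebra ℂ A]
        (ι : D →ₐ[ℂ] A) (ω ω' : ℂ) (τ τ' : A), (0 < B.card → IsPrimitiveRoot ω B.card) →
        (0 < C.card → IsPrimitiveRoot ω' C.card) → (0 < B.card → τ ^ B.card = ι du) →
        (0 < C.card → τ' ^ C.card = ι dv) → ∀ k,
        MvPolynomial.aeval (fun p : Fin n × Fin n => XX B C ω ω' τ τ' p.1 p.2) (l.getD k 0) =
          ι (z k B C) := by
  induction h with
  | nil =>
    refine ⟨fun _ _ _ => 0, ⊥, ?_, fun k => ?_, ?_⟩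
    · simp
    · have := Good.const (⊥ : Submodule ℂ (Finset (Fin n) → ℂ)) 0
      simpa using this
    · intro B C _ A _ _ ι ω ω' τ τ' _ _ _ _ k
      simp
  | cons l q _ ih =>
    obtain ⟨z, V, h1, h2, h3⟩ := ih
    obtain ⟨ψ, hψ⟩ := Good.step h2 (g0 q) (gB q) (fun B => (B.card : ℂ)) n
    refine ⟨fun k => match k with
      | 0 => step (g0 q) (gB q) (fun B => (B.card : ℂ)) n z
      | k + 1 => z k, V ⊔ ℂ ∙ ψ, ?_, ?_, ?_⟩
    · have h4 := Submodule.finrank_add_le_finrank_add_finrank V (ℂ ∙ ψ)
      have h5 : Module.finrank ℂ (ℂ ∙ ψ) ≤ 1 := by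
        have := finrank_span_le_card (R := ℂ) ({ψ} : Set (Finset (Fin n) → ℂ))
        simpa using this
      rw [List.length_cons]
      omega
    · intro k
      rcases k with _ | k
      · exact hψ
      · exact (h2 k).mono le_sup_left
    · intro B C hBC A _ _ ι ω ω' τ τ' c1 c2 c3 c4 k
      rcases k with _ | k
      · rw [List.getD_cons_zero, map_sum]
        have h6 := h3 B C hBC A ι ω ω' τ τ' c1 c2 c3 c4
        have h7 := pool_eval ι B C hBC c1 c2 τ τ' c3 c4 q (fun k => z k B C)
        refine Eq.trans (Finset.sum_congr rfl fun i _ => ?_) h7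
        rw [aeval_comp (τ := ℕ)]
        congr 1
        congr 1
        funext x
        rcases x with j | k
        · simp
        · simp only [Sum.elim_inr]; exact h6 k
      · rw [List.getD_cons_succ]
        exact h3 B C hBC A ι ω ω' τ τ' c1 c2 c3 c4 k

/-! ### the permanent of the test matrices -/

section per

variable {A : Type} [CommRing A] [Algebra ℂ A]

theorem perm_eval (f : Fin n × Fin n → A) : MvPolynomial.aeval f (perm n) =
    ∑ σ : Equiv.Perm (Fin n), ∏ j, f (σ j, j) := by
  unfold perm Matrix.permanent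
  simp [map_sum, map_prod]

theorem per_small (B C : Finset (Fin n)) (ω ω' : ℂ) (τ τ' : A) (h : B.card + C.card < n) :
    MvPolynomial.aeval (fun p : Fin n × Fin n => XX B C ω ω' τ τ' p.1 p.2) (perm n) = 0 := by
  rw [perm_eval]
  refine Finset.sum_eq_zero fun σ _ => ?_
  refine Finset.prod_eq_zero (mem_univ (σ.symm ⟨n - 1, by omega⟩)) ?_
  simp only [Equiv.apply_symm_apply]
  unfold XX
  rw [if_neg (by show ¬ n - 1 < _; omega), if_neg (by show ¬ n - 1 < _; omega)]

theorem per_ne (B C : Finset (Fin n)) (ω ω' : ℂ) (τ τ' : A) (h : B.card + C.card = n)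
    (hBC : C ≠ Bᶜ) :
    MvPolynomial.aeval (fun p : Fin n × Fin n => XX B C ω ω' τ τ' p.1 p.2) (perm n) = 0 := by
  classical
  rw [perm_eval]
  refine Finset.sum_eq_zero fun σ _ => ?_
  by_contra hne
  have h1 : ∀ j, XX B C ω ω' τ τ' (σ j) j ≠ 0 := by
    intro j hj
    exact hne (Finset.prod_eq_zero (mem_univ j) hj)
  have h2 : ∀ j, (σ j : ℕ) < B.card → j ∈ B := by
    intro j hj
    by_contra hj'
    apply h1 j
    unfold XX
    rw [if_pos hj, if_neg hj']
  have h3 : ∀ j, ¬ (σ j : ℕ) < B.card → j ∈ C := by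
    intro j hj
    by_contra hj'
    apply h1 j
    unfold XX
    rw [if_neg hj, if_pos (by rw [h]; exact (σ j).2), if_neg hj']
  have h4 : (univ.filter fun j : Fin n => (σ j : ℕ) < B.card).card = B.card := by
    have h5 : (univ.filter fun j : Fin n => (σ j : ℕ) < B.card) =
        (univ.filter fun i : Fin n => (i : ℕ) < B.card).map σ.symm.toEmbedding := by
      ext j; simp
    rw [h5, card_map]
    rw [Fin.card_filter_val_lt]
    omega
  have h5 : (univ.filter fun j : Fin n => (σ j : ℕ) < B.card) = B := by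
    refine Finset.eq_of_subset_of_card_le (fun j hj => h2 j (mem_filter.1 hj).2) h4.ge
  have h6 : Bᶜ ⊆ C := by
    intro j hj
    refine h3 j fun h7 => ?_
    rw [mem_compl] at hj
    exact hj (h2 j h7)
  refine hBC (Finset.eq_of_subset_of_card_le h6 ?_).symm
  rw [card_compl, Fintype.card_fin]
  omega

theorem per_eq (B : Finset (Fin n)) (ω ω' : ℂ) (hω : ω ≠ 0) (hω' : ω' ≠ 0) : ∃ κ : ℂ, κ ≠ 0 ∧
    ∀ (A : Type) [CommRing A] [Algebra ℂ A] (τ τ' : A),
      MvPolynomial.aeval (fun p : Fin n × Fin n => XX B Bᶜ ω ω' τ τ' p.1 p.2) (perm n) =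
        algebraMap ℂ A κ * (τ ^ B.card * τ' ^ Bᶜ.card) := by
  classical
  have hc : B.card + Bᶜ.card = n := by
    rw [card_compl, Fintype.card_fin]
    have := card_le_univ B
    rw [Fintype.card_fin] at this
    omega
  let rc : Fin n → ℂ := fun i => if (i : ℕ) < B.card then ω ^ (i : ℕ) else ω' ^ ((i : ℕ) - B.card)
  let W := univ.filter fun σ : Equiv.Perm (Fin n) => ∀ j, ((σ j : ℕ) < B.card ↔ j ∈ B)
  have hW : W.Nonempty := by
    have h1 : B.card = (univ.filter fun i : Fin n => (i : ℕ) < B.card).card := by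
      rw [Fin.card_filter_val_lt]; omega
    obtain ⟨e⟩ : Nonempty ({x // x ∈ B} ≃
        {x // x ∈ univ.filter fun i : Fin n => (i : ℕ) < B.card}) := by
      refine Fintype.card_eq.1 ?_
      rw [Fintype.card_coe, Fintype.card_coe]
      exact h1
    refine ⟨e.extendSubtype, mem_filter.2 ⟨mem_univ _, fun j => ⟨fun hj => ?_, fun hj => ?_⟩⟩⟩
    · by_contra hj'
      exact e.extendSubtype_not_mem j hj' (mem_filter.2 ⟨mem_univ _, hj⟩)
    · exact (mem_filter.1 (e.extendSubtype_mem j hj)).2
  refine ⟨(W.card : ℂ) * ∏ i, rc i, mul_ne_zero (by exact_mod_cast hW.card_pos.ne')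
    (Finset.prod_ne_zero_iff.2 fun i _ => ?_), fun A _ _ τ τ' => ?_⟩
  · by_cases h : (i : ℕ) < B.card
    · simp only [rc]; rw [if_pos h]; exact pow_ne_zero _ hω
    · simp only [rc]; rw [if_neg h]; exact pow_ne_zero _ hω'
  · rw [perm_eval]
    have h2 : ∀ σ : Equiv.Perm (Fin n), ∏ j, XX B Bᶜ ω ω' τ τ' (σ j) j =
        if σ ∈ W then algebraMap ℂ A (∏ i, rc i) * (τ ^ B.card * τ' ^ Bᶜ.card) else 0 := by
      intro σ
      by_cases hσ : σ ∈ W
      · rw [if_pos hσ]
        have hσ' := (mem_filter.1 hσ).2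
        have h3 : ∀ j, XX B Bᶜ ω ω' τ τ' (σ j) j =
            algebraMap ℂ A (rc (σ j)) * (if j ∈ B then τ else τ') := by
          intro j
          unfold XX
          by_cases hj : j ∈ B
          · have := (hσ' j).2 hj
            simp only [rc]
            rw [if_pos this, if_pos hj, if_pos this, if_pos hj]
          · have h4 := fun h => hj ((hσ' j).1 h)
            simp only [rc]
            rw [if_neg h4, if_pos (by rw [hc]; exact (σ j).2), if_pos (mem_compl.2 hj),
              if_neg h4, if_neg hj]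
        have h5 : ∏ j : Fin n, (if j ∈ B then τ else τ') = τ ^ B.card * τ' ^ Bᶜ.card := by
          rw [Finset.prod_ite, Finset.prod_const, Finset.prod_const]
          congr 3
          · ext j; simp
          · ext j; simp
        rw [Finset.prod_congr rfl fun j _ => h3 j, Finset.prod_mul_distrib, ← map_prod,
          Equiv.prod_comp σ rc, h5]
      · rw [if_neg hσ]
        have : ∃ j, ¬ ((σ j : ℕ) < B.card ↔ j ∈ B) := by
          by_contra h
          push Not at h
          exact hσ (mem_filter.2 ⟨mem_univ _, h⟩)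
        obtain ⟨j, hj⟩ := this
        refine Finset.prod_eq_zero (mem_univ j) ?_
        unfold XX
        by_cases h3 : (σ j : ℕ) < B.card
        · rw [if_pos h3, if_neg (fun h4 => hj ⟨fun _ => h4, fun _ => h3⟩)]
        · have h4 : j ∈ B := by
            by_contra h4
            exact hj ⟨fun h => absurd h h3, fun h => absurd h h4⟩
          rw [if_neg h3, if_pos (by rw [hc]; exact (σ j).2), if_neg (by simpa using h4)]
    rw [Finset.sum_congr rfl fun σ _ => h2 σ, Finset.sum_ite_mem, univ_inter, Finset.sum_const,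
      nsmul_eq_mul]
    simp only [map_mul, map_natCast]
    ring

end per

/-! ### linear algebra -/

theorem rank_bound {T : Type} [Fintype T] (U : Submodule ℂ (T → ℂ)) (M₁ M₂ : T → T → ℂ)
    (h1 : ∀ C, (fun B => M₁ B C) ∈ U) (h2 : ∀ B, (fun C => M₂ B C) ∈ U)
    (hinj : ∀ w : T → ℂ, (∀ B, ∑ C, (M₁ B C + M₂ B C) * w C = 0) → w = 0) :
    Fintype.card T ≤ 2 * Module.finrank ℂ U := by
  classical
  let Ψ : (T → ℂ) →ₗ[ℂ] Module.Dual ℂ U :=
    { toFun := fun w =>
        { toFun := fun ψ => ∑ C, ψ.1 C * w C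
          map_add' := fun ψ ψ' => by
            rw [← Finset.sum_add_distrib]
            refine Finset.sum_congr rfl fun C _ => ?_
            show (ψ.1 C + ψ'.1 C) * w C = _
            ring
          map_smul' := fun a ψ => by
            simp only [RingHom.id_apply, smul_eq_mul]
            rw [Finset.mul_sum]
            refine Finset.sum_congr rfl fun C _ => ?_
            show (a * ψ.1 C) * w C = _
            ring }
      map_add' := fun w w' => by
        ext ψ
        show ∑ C, ψ.1 C * (w C + w' C) = ∑ C, ψ.1 C * w C + ∑ C, ψ.1 C * w' C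
        rw [← Finset.sum_add_distrib]
        exact Finset.sum_congr rfl fun C _ => by ring
      map_smul' := fun a w => by
        ext ψ
        show ∑ C, ψ.1 C * (a * w C) = a * ∑ C, ψ.1 C * w C
        rw [Finset.mul_sum]
        exact Finset.sum_congr rfl fun C _ => by ring }
  have h3 := LinearMap.finrank_range_add_finrank_ker Ψ
  have h4 : Module.finrank ℂ (LinearMap.range Ψ) ≤ Module.finrank ℂ U := by
    calc _ ≤ Module.finrank ℂ (Module.Dual ℂ U) := Submodule.finrank_le _
      _ = _ := Subspace.dual_finrank_eq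
  let L : LinearMap.ker Ψ →ₗ[ℂ] U :=
    { toFun := fun w => ⟨fun B => ∑ C, M₁ B C * w.1 C, by
        have : (fun B => ∑ C, M₁ B C * w.1 C) = ∑ C, w.1 C • (fun B => M₁ B C) := by
          funext B
          simp only [Finset.sum_apply, Pi.smul_apply, smul_eq_mul]
          exact Finset.sum_congr rfl fun C _ => by ring
        rw [this]
        exact U.sum_mem fun C _ => U.smul_mem _ (h1 C)⟩
      map_add' := fun w w' => by
        ext B
        show ∑ C, M₁ B C * (w.1 C + w'.1 C) = ∑ C, M₁ B C * w.1 C + ∑ C, M₁ B C * w'.1 C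
        rw [← Finset.sum_add_distrib]
        exact Finset.sum_congr rfl fun C _ => by ring
      map_smul' := fun a w => by
        ext B
        show ∑ C, M₁ B C * (a * w.1 C) = a * ∑ C, M₁ B C * w.1 C
        rw [Finset.mul_sum]
        exact Finset.sum_congr rfl fun C _ => by ring }
  have hL : Function.Injective L := by
    rw [← LinearMap.ker_eq_bot, LinearMap.ker_eq_bot']
    intro w hw
    have h5 : w.1 = 0 := by
      refine hinj w.1 fun B => ?_
      have h6 : ∑ C, M₁ B C * w.1 C = 0 := congrFun (congrArg Subtype.val hw) B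
      have h7 : ∑ C, M₂ B C * w.1 C = 0 := by
        have := w.2
        rw [LinearMap.mem_ker] at this
        exact congrArg (fun φ => φ ⟨fun C => M₂ B C, h2 B⟩) this
      simp only [add_mul, Finset.sum_add_distrib, h6, h7, add_zero]
    exact Subtype.ext h5
  have h5 := LinearMap.finrank_le_finrank_of_injective hL
  have h6 : Module.finrank ℂ (T → ℂ) = Fintype.card T := Module.finrank_fintype_fun_eq_card ℂ
  omega

end Pool.Agent.W941.VP.PL
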