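import Mathlib
import Pool.Agent.W941.VP.Pool3

/-! Pooling programs: the lower bound, conclusion. -/

namespace Pool.Agent.W941.VP.PL

open MvPolynomial Finset

set_option linter.unusedSectionVars false
set_option linter.unusedVariables false
set_option autoImplicit false

variable {n : ℕ}

theorem ext_exists (b c : ℕ) : ∃ (A : Type) (_ : CommRing A) (_ : Algebra ℂ A) (ι : D →ₐ[ℂ] A)
    (τ τ' : A), Function.Injective ι ∧ (0 < b → τ ^ b = ι du) ∧ (0 < c → τ' ^ c = ι dv) := by
  obtain ⟨A, i1, i2, f, τ, hf, hτ⟩ := exists_root D du (max b 1) (by omega)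
  let _ := i1
  let _ := i2
  have _ : Nontrivial A := hf.nontrivial
  obtain ⟨A', j1, j2, f', τ', hf', hτ'⟩ := exists_root A (f dv) (max c 1) (by omega)
  let _ := j1
  let _ := j2
  refine ⟨A', j1, j2, f'.comp f, f' τ, τ', hf'.comp hf, fun hb => ?_, fun hc => ?_⟩
  · rw [max_eq_left (by omega : 1 ≤ b)] at hτ
    rw [← map_pow, hτ]; rfl
  · rw [max_eq_left (by omega : 1 ≤ c)] at hτ'
    rw [hτ']; rfl

noncomputable def om (b : ℕ) : ℂ := Complex.exp (2 * Real.pi * Complex.I / b)

theorem om_ne (b : ℕ) : om b ≠ 0 := Complex.exp_ne_zero _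

theorem om_prim (b : ℕ) (hb : 0 < b) : IsPrimitiveRoot (om b) b :=
  Complex.isPrimitiveRoot_exp b hb.ne'

theorem lower (hn : 1 ≤ n) (l : List (MvPolynomial (Fin n × Fin n) ℂ)) (h : Pooled n l)
    (P : MvPolynomial ℕ ℂ) (hP : perm n = MvPolynomial.aeval (fun k => l.getD k 0) P) :
    2 ^ (n - 1) ≤ l.length := by
  classical
  obtain ⟨z, V, hV, hz, hl⟩ := struct l h
  obtain ⟨a, φ, M₁, M₂, hφ, hM₁, hM₂, hW⟩ := (Good.aeval hz P).out
  set W : Finset (Fin n) → Finset (Fin n) → D := fun B C => MvPolynomial.aeval (fun k => z k B C) P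
    with hWdef
  -- the link
  have key : ∀ B C : Finset (Fin n), B.card + C.card ≤ n → ∀ (A : Type) [CommRing A] [Algebra ℂ A]
      (ι : D →ₐ[ℂ] A) (τ τ' : A), (0 < B.card → τ ^ B.card = ι du) →
      (0 < C.card → τ' ^ C.card = ι dv) →
      ι (W B C) = MvPolynomial.aeval
        (fun p : Fin n × Fin n => XX B C (om B.card) (om C.card) τ τ' p.1 p.2) (perm n) := by
    intro B C hBC A _ _ ι τ τ' h1 h2
    have e1 := aeval_comp (τ := ℕ) (fun k => z k B C) ι P
    have e2 := aeval_comp (τ := ℕ) (fun k => l.getD k 0) (MvPolynomial.aeval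
        (fun p : Fin n × Fin n => XX B C (om B.card) (om C.card) τ τ' p.1 p.2)) P
    rw [hP, e2]
    refine e1.trans ?_
    congr 1
    congr 1
    funext k
    exact (hl B C hBC A ι _ _ τ τ' (om_prim _) (om_prim _) h1 h2 k).symm
  have h0 : ∀ B C : Finset (Fin n), B.card + C.card < n → W B C = 0 := by
    intro B C hBC
    obtain ⟨A, i1, i2, ι, τ, τ', hι, h1, h2⟩ := ext_exists B.card C.card
    apply hι
    rw [key B C hBC.le A ι τ τ' h1 h2, per_small B C _ _ τ τ' hBC, map_zero]
  have h1 : ∀ B C : Finset (Fin n), B.card + C.card = n → C ≠ Bᶜ → W B C = 0 := by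
    intro B C hBC hne
    obtain ⟨A, i1, i2, ι, τ, τ', hι, h1, h2⟩ := ext_exists B.card C.card
    apply hι
    rw [key B C hBC.le A ι τ τ' h1 h2, per_ne B C _ _ τ τ' hBC hne, map_zero]
  have hcc : ∀ B : Finset (Fin n), B.card + Bᶜ.card = n := by
    intro B
    rw [card_compl, Fintype.card_fin]
    have := card_le_univ B
    rw [Fintype.card_fin] at this
    omega
  have h2 : ∀ B : Finset (Fin n), B.Nonempty → Bᶜ.Nonempty → cw (W B Bᶜ) ≠ 0 := by
    intro B hB hB'
    obtain ⟨A, i1, i2, ι, τ, τ', hι, h1, h2⟩ := ext_exists B.card Bᶜ.card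
    obtain ⟨κ, hκ, hv⟩ := per_eq B (om B.card) (om Bᶜ.card) (om_ne _) (om_ne _)
    have h3 : W B Bᶜ = algebraMap ℂ D κ * (du * dv) := by
      apply hι
      rw [key B Bᶜ (hcc B).le A ι τ τ' h1 h2, hv A τ τ', h1 hB.card_pos, h2 hB'.card_pos]
      simp only [map_mul, AlgHom.commutes]
    rw [h3]
    simpa using hκ
  have h3 : cu (W univ ∅) ≠ 0 := by
    obtain ⟨A, i1, i2, ι, τ, τ', hι, h1, h2⟩ :=
      ext_exists (univ : Finset (Fin n)).card (∅ : Finset (Fin n)).card
    obtain ⟨κ, hκ, hv⟩ := per_eq (univ : Finset (Fin n)) (om _) (om (univ : Finset (Fin n))ᶜ.card)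
      (om_ne _) (om_ne _)
    have h3 : W univ ∅ = algebraMap ℂ D κ * du := by
      apply hι
      rw [key univ ∅ (by simp) A ι τ τ' h1 h2]
      have h4 := hv A τ τ'
      rw [compl_univ] at h4
      rw [h4, h1 (by simp; omega), card_empty, pow_zero, mul_one]
      simp only [map_mul, AlgHom.commutes]
    rw [h3]
    simpa using hκ
  -- the restriction
  let T := {B : Finset (Fin n) // B ≠ ∅ ∧ B ≠ univ}
  have hTc : Fintype.card T + 2 = 2 ^ n := by
    have e1 : Fintype.card T = (univ.filter fun B : Finset (Fin n) => B ≠ ∅ ∧ B ≠ univ).card :=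
      Fintype.card_subtype _
    have e2 : (univ.filter fun B : Finset (Fin n) => B ≠ ∅ ∧ B ≠ univ) =
        (univ : Finset (Finset (Fin n))) \ {∅, univ} := by
      ext B; simp
    have e3 : ({∅, univ} : Finset (Finset (Fin n))).card = 2 := by
      rw [card_pair]
      intro h
      have := congrArg Finset.card h
      simp at this
      omega
    have e4 := card_sdiff_add_card_inter (univ : Finset (Finset (Fin n))) {∅, univ}
    rw [univ_inter, e3, card_univ, Fintype.card_finset, Fintype.card_fin] at e4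
    rw [e1, e2]
    exact e4
  let ρ : (Finset (Fin n) → ℂ) →ₗ[ℂ] (T → ℂ) := LinearMap.funLeft ℂ ℂ Subtype.val
  let U : Submodule ℂ (T → ℂ) := V.map ρ
  have hφ1 : φ univ ≠ 0 := by
    rw [← (hW univ ∅).2.1]; exact h3
  have hφ0 : ∀ B : T, φ B.1 = 0 := by
    intro B
    rw [← (hW B.1 ∅).2.1]
    have : W B.1 ∅ = 0 := by
      apply h0
      rw [card_empty, add_zero]
      have := card_lt_univ_of_notMem (x := (not_forall.1 fun h => B.2.2 (eq_univ_iff_forall.2 h)).choose)
        (not_forall.1 fun h => B.2.2 (eq_univ_iff_forall.2 h)).choose_spec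
      simpa using this
    show cu (W B.1 ∅) = 0
    rw [this]; rfl
  have hU : Module.finrank ℂ U + 1 ≤ l.length := by
    have e1 := LinearMap.finrank_range_add_finrank_ker (ρ.domRestrict V)
    have e2 : LinearMap.range (ρ.domRestrict V) = U := LinearMap.range_domRestrict V ρ
    have e3 : 1 ≤ Module.finrank ℂ (LinearMap.ker (ρ.domRestrict V)) := by
      rw [Nat.one_le_iff_ne_zero, Ne, Submodule.finrank_eq_zero]
      intro h
      have h4 : (⟨φ, hφ⟩ : V) ∈ LinearMap.ker (ρ.domRestrict V) := by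
        rw [LinearMap.mem_ker]
        funext B
        exact hφ0 B
      rw [h, Submodule.mem_bot] at h4
      have h5 := congrArg (fun x : V => x.1 univ) h4
      exact hφ1 h5
    rw [e2] at e1
    omega
  have hrank := rank_bound U (fun B C => M₁ B.1 C.1) (fun B C => M₂ B.1 C.1)
    (fun C => Submodule.mem_map_of_mem (f := ρ) (hM₁ C.1))
    (fun B => Submodule.mem_map_of_mem (f := ρ) (hM₂ B.1)) (by
      intro w hw
      by_contra hne
      have hex : (univ.filter fun C : T => w C ≠ 0).Nonempty := by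
        by_contra h4
        rw [not_nonempty_iff_eq_empty, filter_eq_empty_iff] at h4
        exact hne (funext fun C => not_not.1 (h4 (mem_univ C)))
      obtain ⟨C, hC, hmax⟩ := exists_max_image _ (fun C : T => C.1.card) hex
      have hC' := (mem_filter.1 hC).2
      have hCn : C.1.Nonempty := nonempty_iff_ne_empty.2 C.2.1
      have hCc : (C.1)ᶜ.Nonempty := by
        rw [nonempty_iff_ne_empty, Ne, compl_eq_empty_iff]; exact C.2.2
      let B : T := ⟨(C.1)ᶜ, hCc.ne_empty, by
        rw [Ne, compl_eq_univ_iff]; exact C.2.1⟩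
      have h5 := hw B
      rw [Finset.sum_eq_single C] at h5
      · rcases mul_eq_zero.1 h5 with h6 | h6
        · have h7 := (hW B.1 C.1).2.2.2
          have h8 : M₁ B.1 C.1 + M₂ B.1 C.1 = 0 := h6
          rw [h8] at h7
          have h9 := h2 (C.1)ᶜ hCc (by rw [compl_compl]; exact hCn)
          rw [compl_compl] at h9
          exact h9 h7
        · exact hC' h6
      · intro C' _ hCC
        by_cases hwC : w C' = 0
        · rw [hwC, mul_zero]
        · have h6 := hmax C' (mem_filter.2 ⟨mem_univ _, hwC⟩)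
          have h7 : W B.1 C'.1 = 0 := by
            have h8 := hcc C.1
            rcases Nat.lt_or_ge (C'.1.card) (C.1.card) with h9 | h9
            · apply h0
              show (C.1)ᶜ.card + _ < n
              omega
            · apply h1
              · show (C.1)ᶜ.card + _ = n
                omega
              · show C'.1 ≠ ((C.1)ᶜ)ᶜ
                rw [compl_compl]
                exact fun h => hCC (Subtype.ext h)
          have h8 := (hW B.1 C'.1).2.2.2
          have h9 : cw (W B.1 C'.1) = M₁ B.1 C'.1 + M₂ B.1 C'.1 := h8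
          rw [h7] at h9
          rw [← h9]
          show (0 : ℂ) * _ = 0
          rw [zero_mul]
      · intro h; exact absurd (mem_univ C) h)
  have h4 : 2 ^ n = 2 * 2 ^ (n - 1) := by
    obtain ⟨m, rfl⟩ : ∃ m, n = m + 1 := ⟨n - 1, by omega⟩
    rw [Nat.add_sub_cancel, pow_succ]; ring
  omega

end Pool.Agent.W941.VP.PL
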