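import Mathlib
import Pool.Agent.W941.VP.Pool4

/-! Pooling programs: the upper bounds. -/

namespace Pool.Agent.W941.VP.PL

open MvPolynomial Finset

set_option linter.unusedSectionVars false
set_option linter.unusedVariables false
set_option autoImplicit false

/-- the sums over the rows of the monomials -/
def SS {R I : Type} [CommRing R] [Fintype I] {m : ℕ} (x : I → Fin m → R) (C : Finset (Fin m)) : R :=
  ∑ i, ∏ j ∈ C, x i j

theorem sum_inst {I R : Type} [AddCommMonoid R] (a b : Fintype I) (f : I → R) :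
    @Finset.sum I R _ (@univ I a) f = @Finset.sum I R _ (@univ I b) f := by
  rw [Subsingleton.elim a b]

theorem exists_E (m : ℕ) : ∃ E : MvPolynomial (Finset (Fin m)) ℂ, ∀ (R : Type) [CommRing R]
    [Algebra ℂ R] (I : Type) [Fintype I] [DecidableEq I] (x : I → Fin m → R),
    ∑ e : Fin m ↪ I, ∏ j, x (e j) j = MvPolynomial.aeval (SS x) E := by
  classical
  induction m with
  | zero =>
    refine ⟨1, fun R _ _ I _ _ x => ?_⟩
    simp
  | succ m ih =>
    obtain ⟨E, hE⟩ := ih
    let up : Finset (Fin m) → Finset (Fin (m + 1)) := fun C => C.map (Fin.succEmb m)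
    let th : Fin m → Finset (Fin m) → Finset (Fin (m + 1)) :=
      fun k C => if k ∈ C then insert 0 (up C) else up C
    refine ⟨X {0} * rename up E - ∑ k, rename (th k) E, fun R _ _ I _ _ x => ?_⟩
    have h1 : ∑ e : Fin (m + 1) ↪ I, ∏ j, x (e j) j =
        ∑ e : Fin m ↪ I, ∑ i : {i // i ∉ Set.range e}, x i 0 * ∏ j, x (e j) j.succ := by
      rw [← Equiv.sum_comp (Equiv.embeddingFinSucc m I).symm, Fintype.sum_sigma]
      refine Finset.sum_congr rfl fun e _ => Finset.sum_congr rfl fun i _ => ?_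
      rw [Fin.prod_univ_succ]
      rfl
    have h2 : ∀ e : Fin m ↪ I, ∑ i : {i // i ∉ Set.range e}, x i 0 =
        SS x {0} - ∑ k, x (e k) 0 := by
      intro e
      have h3 : ∑ i : {i // i ∈ Set.range e}, x i 0 + ∑ i : {i // i ∉ Set.range e}, x i 0 =
          ∑ i, x i 0 := by
        refine Eq.trans ?_ (Fintype.sum_subtype_add_sum_subtype (fun i => i ∈ Set.range e)
          (fun i => x i 0))
        exact congrArg₂ (· + ·) (sum_inst _ _ _) (sum_inst _ _ _)
      have h4 : ∑ i : {i // i ∈ Set.range e}, x i 0 = ∑ k, x (e k) 0 := by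
        rw [← Equiv.sum_comp (Equiv.ofInjective e e.injective)]
        rfl
      have h5 : SS x {0} = ∑ i, x i 0 := by
        unfold SS; simp
      rw [h4] at h3
      rw [h5, ← h3]; ring
    have hup : (SS x) ∘ up = SS (fun i j => x i j.succ) := by
      funext C
      show ∑ i, ∏ j ∈ C.map (Fin.succEmb m), x i j = ∑ i, ∏ j ∈ C, x i j.succ
      refine Finset.sum_congr rfl fun i _ => ?_
      rw [Finset.prod_map]; rfl
    have h0 : ∀ C : Finset (Fin m), (0 : Fin (m + 1)) ∉ up C := by
      intro C h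
      obtain ⟨j, _, hj⟩ := Finset.mem_map.1 h
      exact Fin.succ_ne_zero j hj
    have hth : ∀ k, (SS x) ∘ th k = SS (fun i j => (if j = k then x i 0 else 1) * x i j.succ) := by
      intro k
      funext C
      show SS x (th k C) = ∑ i, ∏ j ∈ C, (if j = k then x i 0 else 1) * x i j.succ
      have h6 : ∀ i, ∏ j ∈ C, (if j = k then x i 0 else 1) * x i j.succ =
          (if k ∈ C then x i 0 else 1) * ∏ j ∈ up C, x i j := by
        intro i
        rw [Finset.prod_mul_distrib, Finset.prod_ite_eq' C k (fun _ => x i 0), Finset.prod_map]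
        rfl
      rw [Finset.sum_congr rfl fun i _ => h6 i]
      show SS x (if k ∈ C then insert 0 (up C) else up C) = _
      by_cases hk : k ∈ C
      · simp only [if_pos hk]
        unfold SS
        refine Finset.sum_congr rfl fun i _ => ?_
        rw [Finset.prod_insert (h0 C)]
      · simp only [if_neg hk, one_mul]
        rfl
    have h7 : ∀ k, ∑ e : Fin m ↪ I, x (e k) 0 * ∏ j, x (e j) j.succ =
        MvPolynomial.aeval (SS x) (rename (th k) E) := by
      intro k
      rw [aeval_rename, hth, ← hE R I]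
      refine Finset.sum_congr rfl fun e _ => ?_
      rw [Finset.prod_mul_distrib, Finset.prod_ite_eq' univ k (fun j => x (e j) 0),
        if_pos (mem_univ k)]
    have h8 : ∑ e : Fin m ↪ I, ∏ j, x (e j) j.succ =
        MvPolynomial.aeval (SS x) (rename up E) := by
      rw [aeval_rename, hup, ← hE R I]
    rw [h1]
    simp only [map_sub, map_mul, aeval_X, map_sum]
    rw [← h8, Finset.mul_sum, ← Finset.sum_congr rfl fun k _ => h7 k, Finset.sum_comm,
      ← Finset.sum_sub_distrib]
    refine Finset.sum_congr rfl fun e _ => ?_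
    rw [← Finset.sum_mul, h2 e, sub_mul, Finset.sum_mul]

/-- one round of poolings -/
theorem pooled_map (n : ℕ) (L : List (MvPolynomial (Fin n) ℂ)) :
    Pooled n (L.map fun r => ∑ i : Fin n, MvPolynomial.aeval (fun j => X (i, j)) r) := by
  induction L with
  | nil => exact Pooled.nil
  | cons r L ih =>
    have h := Pooled.cons _ (rename Sum.inl r) ih
    have e : (∑ i : Fin n, MvPolynomial.aeval (Sum.elim (fun j => X (i, j)) fun k =>
        (L.map fun r => ∑ i : Fin n, MvPolynomial.aeval (fun j => X (i, j)) r).getD k 0)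
        (rename Sum.inl r : MvPolynomial (Fin n ⊕ ℕ) ℂ) : MvPolynomial (Fin n × Fin n) ℂ) =
        ∑ i : Fin n, MvPolynomial.aeval (fun j => X (i, j)) r := by
      refine Finset.sum_congr rfl fun i _ => ?_
      rw [aeval_rename]
      rfl
    rw [e] at h
    exact h

theorem mem_getD {α : Type} (L : List α) (a d : α) (h : a ∈ L) : ∃ k, L.getD k d = a := by
  obtain ⟨k, hk, e⟩ := List.getElem_of_mem h
  exact ⟨k, by rw [List.getD_eq_getElem _ _ hk, e]⟩

/-- expansion of the permanent along the first column -/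
theorem perm_expand (m : ℕ) : perm (m + 1) = ∑ p : Fin (m + 1), X (p, 0) *
    ∑ e : Fin m ↪ Fin m, ∏ j : Fin m, X (Equiv.swap 0 p (e j).succ, j.succ) := by
  classical
  unfold perm Matrix.permanent
  rw [← Equiv.sum_comp (Equiv.Perm.decomposeFin (n := m)).symm, Fintype.sum_prod_type]
  refine Finset.sum_congr rfl fun p _ => ?_
  rw [← Equiv.sum_comp (Equiv.embeddingEquivOfFinite (Fin m)), Finset.mul_sum]
  refine Finset.sum_congr rfl fun e _ => ?_
  rw [Fin.prod_univ_succ, Equiv.Perm.decomposeFin_symm_apply_zero]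
  simp only [Matrix.of_apply]
  congr 1
  refine Finset.prod_congr rfl fun j _ => ?_
  rw [Equiv.Perm.decomposeFin_symm_apply_succ]
  rfl

theorem SS_swap (m : ℕ) (p : Fin (m + 1)) (C : Finset (Fin m)) :
    SS (fun (r : Fin m) (j : Fin m) => (X (Equiv.swap 0 p r.succ, j.succ) :
      MvPolynomial (Fin (m + 1) × Fin (m + 1)) ℂ)) C =
      (∑ i : Fin (m + 1), ∏ j ∈ C, X (i, j.succ)) - ∏ j ∈ C, X (p, j.succ) := by
  rw [← Equiv.sum_comp (Equiv.swap 0 p), Fin.sum_univ_succ, Equiv.swap_apply_left]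
  unfold SS
  ring

theorem upper (n : ℕ) (hn : 1 ≤ n) : ∃ l, Pooled n l ∧ l.length = 2 ^ (n - 1) ∧
    l.getD 0 0 = perm n := by
  classical
  obtain ⟨m, rfl⟩ : ∃ m, n = m + 1 := ⟨n - 1, by omega⟩
  obtain ⟨E, hE⟩ := exists_E m
  let mon : Finset (Fin m) → MvPolynomial (Fin (m + 1)) ℂ := fun C => ∏ j ∈ C, X j.succ
  let L : List (MvPolynomial (Fin (m + 1)) ℂ) := (univ.erase (∅ : Finset (Fin m))).toList.map mon
  let l0 := L.map fun r => ∑ i : Fin (m + 1),
    (MvPolynomial.aeval (fun j => (X (i, j) : MvPolynomial (Fin (m + 1) × Fin (m + 1)) ℂ)) r)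
  have hl0 : Pooled (m + 1) l0 := pooled_map (m + 1) L
  have hlen : l0.length + 1 = 2 ^ m := by
    simp only [l0, L, List.length_map, Finset.length_toList]
    rw [card_erase_add_one (mem_univ _), card_univ, Fintype.card_finset, Fintype.card_fin]
  have hF : ∀ C : Finset (Fin m), ∃ k, C ≠ ∅ → l0.getD k 0 =
      ∑ i : Fin (m + 1), ∏ j ∈ C, X (i, j.succ) := by
    intro C
    by_cases hC : C = ∅
    · exact ⟨0, fun h => absurd hC h⟩
    · have h1 : (∑ i : Fin (m + 1), (MvPolynomial.aeval (fun j =>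
          (X (i, j) : MvPolynomial (Fin (m + 1) × Fin (m + 1)) ℂ)) (mon C))) ∈ l0 := by
        refine List.mem_map.2 ⟨mon C, List.mem_map.2 ⟨C, ?_, rfl⟩, rfl⟩
        rw [Finset.mem_toList]
        exact mem_erase.2 ⟨hC, mem_univ _⟩
      obtain ⟨k, hk⟩ := mem_getD l0 _ 0 h1
      refine ⟨k, fun _ => ?_⟩
      rw [hk]
      refine Finset.sum_congr rfl fun i _ => ?_
      simp only [mon, map_prod, aeval_X]
  choose idx hidx using hF
  let q : MvPolynomial (Fin (m + 1) ⊕ ℕ) ℂ := X (Sum.inl 0) * MvPolynomial.aeval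
    (fun C : Finset (Fin m) => if C = ∅ then (m : MvPolynomial (Fin (m + 1) ⊕ ℕ) ℂ) else
      X (Sum.inr (idx C)) - ∏ j ∈ C, X (Sum.inl j.succ)) E
  refine ⟨_, Pooled.cons l0 q hl0, by rw [List.length_cons, hlen, Nat.add_sub_cancel], ?_⟩
  rw [List.getD_cons_zero, perm_expand]
  refine Finset.sum_congr rfl fun p _ => ?_
  have h1 := hE (MvPolynomial (Fin (m + 1) × Fin (m + 1)) ℂ) (Fin m)
    (fun r j => X (Equiv.swap 0 p r.succ, j.succ))
  rw [h1]
  simp only [q, map_mul, aeval_X, Sum.elim_inl]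
  congr 1
  rw [aeval_comp (τ := ℕ)]
  congr 1
  congr 1
  funext C
  rw [SS_swap]
  by_cases hC : C = ∅
  · rw [if_pos hC, hC]
    simp
  · rw [if_neg hC, map_sub, aeval_X, Sum.elim_inr, hidx C hC, map_prod]
    congr 1
    refine Finset.prod_congr rfl fun j _ => ?_
    rw [aeval_X, Sum.elim_inl]

/-- The generic determinant. -/
noncomputable def gdet (n : ℕ) : MvPolynomial (Fin n × Fin n) ℂ :=
  Matrix.det (Matrix.of fun i j => X (i, j))

theorem det_sq (n : ℕ) : ∃ (l : List (MvPolynomial (Fin n × Fin n) ℂ)) (P : MvPolynomial ℕ ℂ),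
    Pooled n l ∧ 2 * l.length = n * (n + 1) ∧
      gdet n ^ 2 = MvPolynomial.aeval (fun k => l.getD k 0) P := by
  classical
  let J : Finset (Σ _ : Fin n, Fin n) := univ.sigma fun k : Fin n => Finset.Iic k
  let L : List (MvPolynomial (Fin n) ℂ) := J.toList.map fun p => X p.1 * X p.2
  let l0 := L.map fun r => ∑ i : Fin n,
    (MvPolynomial.aeval (fun j => (X (i, j) : MvPolynomial (Fin n × Fin n) ℂ)) r)
  have hl0 : Pooled n l0 := pooled_map n L
  have hlen : 2 * l0.length = n * (n + 1) := by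
    simp only [l0, L, List.length_map, Finset.length_toList, J]
    rw [card_sigma]
    simp only [Fin.card_Iic]
    rw [Fin.sum_univ_eq_sum_range (fun k => k + 1) n]
    clear l0 L J hl0
    induction n with
    | zero => rfl
    | succ n ih => rw [Finset.sum_range_succ, mul_add, ih]; ring
  have hF0 : ∀ a b : Fin n, b ≤ a → ∃ k, l0.getD k 0 = ∑ i : Fin n, X (i, a) * X (i, b) := by
    intro a b hab
    have h1 : (∑ i : Fin n, (MvPolynomial.aeval (fun j =>
        (X (i, j) : MvPolynomial (Fin n × Fin n) ℂ)) (X a * X b : MvPolynomial (Fin n) ℂ))) ∈ l0 := by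
      refine List.mem_map.2 ⟨X a * X b, List.mem_map.2 ⟨⟨a, b⟩, ?_, rfl⟩, rfl⟩
      rw [Finset.mem_toList]
      exact mem_sigma.2 ⟨mem_univ _, mem_Iic.2 hab⟩
    obtain ⟨k, hk⟩ := mem_getD l0 _ 0 h1
    refine ⟨k, ?_⟩
    rw [hk]
    refine Finset.sum_congr rfl fun i _ => ?_
    rw [map_mul, aeval_X, aeval_X]
  have hF : ∀ a b : Fin n, ∃ k, l0.getD k 0 = ∑ i : Fin n, X (i, a) * X (i, b) := by
    intro a b
    rcases le_total b a with h | h
    · exact hF0 a b h
    · obtain ⟨k, hk⟩ := hF0 b a h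
      refine ⟨k, hk.trans ?_⟩
      exact Finset.sum_congr rfl fun i _ =>
        mul_comm (X (i, b) : MvPolynomial (Fin n × Fin n) ℂ) (X (i, a))
  choose idx hidx using hF
  refine ⟨l0, Matrix.det (Matrix.of fun a b => X (idx a b)), hl0, hlen, ?_⟩
  rw [AlgHom.map_det]
  unfold gdet
  rw [pow_two]
  nth_rewrite 1 [← Matrix.det_transpose]
  rw [← Matrix.det_mul]
  congr 1
  ext1 a b
  rw [Matrix.mul_apply]
  simp only [Matrix.transpose_apply, Matrix.of_apply, AlgHom.mapMatrix_apply, Matrix.map_apply,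
    aeval_X]
  exact (hidx a b).symm

end Pool.Agent.W941.VP.PL
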