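import Mathlib

/-! Circuits for the permanent and the images of their gates under row swaps and column signs. -/

namespace Pool.Agent.W941.VP

open MvPolynomial Finset

set_option linter.unusedSectionVars false
set_option linter.unusedVariables false
set_option autoImplicit false

variable {K : Type} [Field K] {n : ℕ}

/-- Arithmetic circuits, as the list of the polynomials computed at the gates (the last gate
first): a gate is a variable, a constant, a linear combination of any number of earlier gates, or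
a product of two earlier gates. -/
inductive Circ (K : Type) [Field K] (n : ℕ) : List (MvPolynomial (Fin n × Fin n) K) → Prop
  | nil : Circ K n []
  | var (l) (p : Fin n × Fin n) : Circ K n l → Circ K n (X p :: l)
  | const (l) (c : K) : Circ K n l → Circ K n (C c :: l)
  | lin (l) (g : MvPolynomial (Fin n × Fin n) K) : Circ K n l →
      g ∈ Submodule.span K {f | f ∈ l} → Circ K n (g :: l)
  | mul (l) (f g : MvPolynomial (Fin n × Fin n) K) : Circ K n l → f ∈ l → g ∈ l →
      Circ K n (f * g :: l)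

/-- The permutation preserves each of the pairs `{0, 1}, {2, 3}, …`: it is a product of some of
the swaps `(0 1), (2 3), …`. -/
def PairPerm (ρ : Equiv.Perm (Fin n)) : Prop := ∀ i, (ρ i : ℕ) / 2 = (i : ℕ) / 2

/-- The substitution `x_{i,j} ↦ d_j x_{ρ(i),j}`: it permutes the rows by `ρ` and changes the sign of
the columns `j` with `d_j = -1`. -/
noncomputable def act (d : Fin n → ℤˣ) (ρ : Equiv.Perm (Fin n)) :
    MvPolynomial (Fin n × Fin n) K →ₐ[K] MvPolynomial (Fin n × Fin n) K :=
  aeval fun p => C (((d p.2 : ℤ)) : K) * X (ρ p.1, p.2)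

/-- The images of the gates under row swaps and sign changes of columns. -/
def images (l : List (MvPolynomial (Fin n × Fin n) K)) :
    Set (MvPolynomial (Fin n × Fin n) K) :=
  {g | ∃ f ∈ l, ∃ (d : Fin n → ℤˣ) (ρ : Equiv.Perm (Fin n)), PairPerm ρ ∧ g = act d ρ f}

/-- The generic permanent. -/
noncomputable def perm (K : Type) [Field K] (n : ℕ) : MvPolynomial (Fin n × Fin n) K :=
  Matrix.permanent (Matrix.of fun i j => X (i, j))

/-! ### evaluation -/

/-- the test vectors -/
def vv (K : Type) [Field K] (s i : Fin n) : K := if (i : ℕ) / 2 = (s : ℕ) / 2 then (-1) ^ (i : ℕ) else 0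

/-- evaluation at the test matrix with the columns scaled by variables -/
noncomputable def Th (τ : Equiv.Perm (Fin n)) :
    MvPolynomial (Fin n × Fin n) K →ₐ[K] MvPolynomial (Fin n) K :=
  aeval fun p => C (vv K (τ p.2) p.1) * X p.2

/-- the squarefree monomial of a set -/
noncomputable def ind (A : Finset (Fin n)) : Fin n →₀ ℕ := Finsupp.indicator A fun _ _ => 1

theorem ind_apply (A : Finset (Fin n)) (j : Fin n) : ind A j = if j ∈ A then 1 else 0 := by
  classical
  unfold ind
  rw [Finsupp.indicator_apply]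
  by_cases h : j ∈ A <;> simp [h]

theorem exists_ind {m : Fin n →₀ ℕ} (hm : ∀ j, m j ≤ 1) : ∃ A : Finset (Fin n), m = ind A := by
  classical
  refine ⟨m.support, ?_⟩
  ext j
  rw [ind_apply]
  have := hm j
  by_cases h : m j = 0
  · simp [h]
  · have : m j = 1 := by omega
    simp [this]

/-- the property that all multilinear coefficients of large degree vanish -/
def Big (F : MvPolynomial (Fin n) K) : Prop :=
  ∀ m : Fin n →₀ ℕ, (∀ j, m j ≤ 1) → n < 3 * ∑ j, m j → coeff m F = 0

theorem circ_big (hn : 3 ≤ n) (τ : Equiv.Perm (Fin n)) (l : List (MvPolynomial (Fin n × Fin n) K))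
    (hl : Circ K n l) (hbal : ∀ f ∈ l, ∀ m : Fin n →₀ ℕ, (∀ j, m j ≤ 1) → n < 3 * ∑ j, m j →
      3 * ∑ j, m j ≤ 2 * n → coeff m (Th τ f) = 0) : ∀ f ∈ l, Big (Th τ f) := by
  classical
  induction hl with
  | nil => intro f hf; simp at hf
  | var l p _ ih =>
    intro f hf
    rcases List.mem_cons.1 hf with rfl | hf
    · intro m hm hd
      have h1 : Th τ (X p : MvPolynomial (Fin n × Fin n) K) =
          C (vv K (τ p.2) p.1) * X p.2 := by simp [Th]
      rw [h1, coeff_C_mul, coeff_X, if_neg, mul_zero]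
      intro h2
      rw [← h2] at hd
      have : ∑ j, (Finsupp.single p.2 1 : Fin n →₀ ℕ) j = 1 := by
        simp [Finsupp.single_apply]
      omega
    · exact ih (fun f hf => hbal f (List.mem_cons_of_mem _ hf)) f hf
  | const l c _ ih =>
    intro f hf
    rcases List.mem_cons.1 hf with rfl | hf
    · intro m hm hd
      have h1 : Th τ (C c : MvPolynomial (Fin n × Fin n) K) = C c := by simp [Th]
      rw [h1, coeff_C, if_neg]
      rintro rfl
      simp at hd
    · exact ih (fun f hf => hbal f (List.mem_cons_of_mem _ hf)) f hf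
  | lin l g _ hg ih =>
    intro f hf
    have ih' := ih (fun f hf => hbal f (List.mem_cons_of_mem _ hf))
    rcases List.mem_cons.1 hf with rfl | hf
    · refine Submodule.span_induction (p := fun g _ => Big (Th τ g)) ?_ ?_ ?_ ?_ hg
      · intro x hx; exact ih' x hx
      · intro m _ _; simp
      · intro x y _ _ hx hy m hm hd
        rw [map_add, coeff_add, hx m hm hd, hy m hm hd, add_zero]
      · intro a x _ hx m hm hd
        rw [map_smul, coeff_smul, hx m hm hd, smul_zero]
    · exact ih' f hf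
  | mul l f g _ hf hg ih =>
    intro f' hf'
    have ih' := ih (fun f hf => hbal f (List.mem_cons_of_mem _ hf))
    rcases List.mem_cons.1 hf' with rfl | hf'
    · intro m hm hd
      by_cases h2 : 3 * ∑ j, m j ≤ 2 * n
      · exact hbal _ (List.mem_cons_self) m hm hd h2
      · rw [map_mul, coeff_mul]
        refine Finset.sum_eq_zero fun x hx => ?_
        rw [HasAntidiagonal.mem_antidiagonal] at hx
        have hx' : ∀ j, x.1 j + x.2 j = m j := fun j => by rw [← hx]; rfl
        have hs : ∑ j, x.1 j + ∑ j, x.2 j = ∑ j, m j := by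
          rw [← Finset.sum_add_distrib]
          exact Finset.sum_congr rfl fun j _ => hx' j
        rcases Nat.lt_or_ge n (3 * ∑ j, x.1 j) with h3 | h3
        · rw [ih' f hf x.1 (fun j => by have := hx' j; have := hm j; omega) h3, zero_mul]
        · rw [ih' g hg x.2 (fun j => by have := hx' j; have := hm j; omega) (by omega), mul_zero]
    · exact ih' f' hf'

/-! ### the value at the permanent -/

/-- the group of the pair permutations -/
def PG (n : ℕ) : Subgroup (Equiv.Perm (Fin n)) where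
  carrier := {ρ | PairPerm ρ}
  mul_mem' := fun {a b} ha hb i => by
    show ((a (b i) : Fin n) : ℕ) / 2 = _
    rw [ha (b i), hb i]
  one_mem' := fun i => rfl
  inv_mem' := fun {a} ha i => by
    have := ha (a⁻¹ i)
    rw [show a (a⁻¹ i) = i by simp] at this
    exact this.symm

theorem PG_sq (ρ : PG n) : ρ * ρ = 1 := by
  ext i
  have h1 := ρ.2 i
  have h2 := ρ.2 (ρ.1 i)
  have h3 : (ρ.1 i = i) ↔ (ρ.1 (ρ.1 i) = ρ.1 i) := ρ.1.injective.eq_iff.symm
  have h4 : (ρ.1 (ρ.1 i) = i) ∨ ¬ (ρ.1 (ρ.1 i) = i) := em _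
  simp only [Fin.ext_iff] at h3 h4
  show ((ρ.1 (ρ.1 i) : Fin n) : ℕ) = i
  omega

theorem PG_card (hK : (2 : K) ≠ 0) : ((Nat.card (PG n) : ℕ) : K) ≠ 0 := by
  have h : IsPGroup 2 (PG n) := fun g => ⟨1, by rw [pow_one, pow_two]; exact PG_sq g⟩
  have : Fact (Nat.Prime 2) := ⟨Nat.prime_two⟩
  obtain ⟨k, hk⟩ := IsPGroup.iff_card.1 h
  rw [hk]
  push_cast
  exact pow_ne_zero _ hK

theorem Th_perm (τ : Equiv.Perm (Fin n)) (hK : (2 : K) ≠ 0) :
    coeff (ind univ) (Th τ (perm K n)) ≠ 0 := by
  classical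
  have h1 : Th τ (perm K n) = ∑ σ : Equiv.Perm (Fin n), ∏ j, (C (vv K (τ j) (σ j)) * X j) := by
    unfold perm Matrix.permanent
    rw [map_sum]
    refine Finset.sum_congr rfl fun σ _ => ?_
    rw [map_prod]
    refine Finset.prod_congr rfl fun j _ => ?_
    simp [Th]
  have h2 : ∀ σ : Equiv.Perm (Fin n), coeff (ind univ)
      (∏ j, (C (vv K (τ j) (σ j)) * X j : MvPolynomial (Fin n) K)) = ∏ j, vv K (τ j) (σ j) := by
    intro σ
    rw [Finset.prod_mul_distrib, ← map_prod, coeff_C_mul]
    have h3 : (∏ j, X j : MvPolynomial (Fin n) K) = monomial (ind univ) 1 := by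
      rw [monomial_eq, C_1, one_mul, Finsupp.prod_fintype _ _ (fun i => pow_zero _)]
      refine Finset.prod_congr rfl fun j _ => ?_
      rw [ind_apply, if_pos (mem_univ _), pow_one]
    rw [h3, coeff_monomial, if_pos rfl, mul_one]
  rw [h1, coeff_sum]
  simp only [h2]
  -- each nonzero term is the same sign
  have h3 : ∀ σ : Equiv.Perm (Fin n), ∏ j, vv K (τ j) (σ j) =
      if σ * τ⁻¹ ∈ PG n then ∏ i : Fin n, (-1 : K) ^ (i : ℕ) else 0 := by
    intro σ
    by_cases h : σ * τ⁻¹ ∈ PG n
    · rw [if_pos h, ← Equiv.prod_comp σ (fun i : Fin n => (-1 : K) ^ (i : ℕ))]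
      refine Finset.prod_congr rfl fun j _ => ?_
      have h4 : ((σ * τ⁻¹) (τ j) : ℕ) / 2 = (τ j : ℕ) / 2 := h (τ j)
      have h5 : (σ * τ⁻¹) (τ j) = σ j := by simp
      rw [h5] at h4
      unfold vv
      rw [if_pos h4]
    · rw [if_neg h]
      have : ∃ i, ¬ ((σ * τ⁻¹) i : ℕ) / 2 = (i : ℕ) / 2 := by
        by_contra h'
        push Not at h'
        exact h h'
      obtain ⟨i, hi⟩ := this
      refine Finset.prod_eq_zero (mem_univ (τ⁻¹ i)) ?_
      unfold vv
      rw [if_neg]
      simpa using hi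
  simp only [h3]
  rw [← Finset.sum_filter, Finset.sum_const, nsmul_eq_mul]
  refine mul_ne_zero ?_ ?_
  · have h4 : (Finset.univ.filter fun σ : Equiv.Perm (Fin n) => σ * τ⁻¹ ∈ PG n).card =
        Nat.card (PG n) := by
      rw [Nat.card_eq_fintype_card, ← Fintype.card_coe]
      refine Fintype.card_congr ⟨fun σ => ⟨σ.1 * τ⁻¹, (mem_filter.1 σ.2).2⟩,
        fun ρ => ⟨ρ.1 * τ, mem_filter.2 ⟨mem_univ _, by simpa using ρ.2⟩⟩, fun σ => ?_,
        fun ρ => ?_⟩
      · ext; simp
      · ext; simp
    rw [h4]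
    exact PG_card hK
  · exact Finset.prod_ne_zero_iff.2 fun i _ => pow_ne_zero _ (neg_ne_zero.2 one_ne_zero)

/-! ### eigenfunctionals -/

/-- the sign of a pair permutation at a row -/
def eps (K : Type) [Field K] (ρ : PG n) (s : Fin n) : K := (-1) ^ ((ρ.1 s : ℕ) + (s : ℕ))

theorem parity (ρ : PG n) {i s : Fin n} (h : (i : ℕ) / 2 = (s : ℕ) / 2) :
    ((ρ.1 i : ℕ) + i) % 2 = ((ρ.1 s : ℕ) + s) % 2 := by
  have h1 := ρ.2 i
  have h2 := ρ.2 s
  have h3 : (ρ.1 i = ρ.1 s) ↔ (i = s) := ρ.1.injective.eq_iff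
  simp only [Fin.ext_iff] at h3
  omega

theorem neg_pow_congr {a b : ℕ} (h : a % 2 = b % 2) : (-1 : K) ^ a = (-1) ^ b := by
  rw [neg_one_pow_eq_pow_mod_two, h, ← neg_one_pow_eq_pow_mod_two]

theorem eps_pair (ρ : PG n) {i s : Fin n} (h : (i : ℕ) / 2 = (s : ℕ) / 2) :
    eps K ρ i = eps K ρ s := neg_pow_congr (parity ρ h)

theorem eps_mul (ρ ρ' : PG n) (s : Fin n) : eps K (ρ * ρ') s = eps K ρ s * eps K ρ' s := by
  rw [← eps_pair (K := K) ρ (ρ'.2 s)]
  unfold eps
  rw [← pow_add]
  refine neg_pow_congr ?_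
  show ((ρ.1 (ρ'.1 s) : ℕ) + s) % 2 = _
  omega

theorem vv_act (ρ : PG n) (s i : Fin n) : vv K s (ρ.1 i) = eps K ρ s * vv K s i := by
  have h1 := ρ.2 i
  unfold vv
  by_cases h : (i : ℕ) / 2 = (s : ℕ) / 2
  · rw [if_pos (h1.trans h), if_pos h]
    unfold eps
    rw [← pow_add]
    refine neg_pow_congr ?_
    have := parity ρ h
    omega
  · rw [if_neg (fun h' => h (h1.symm.trans h')), if_neg h, mul_zero]

/-- scaling of the variables -/
noncomputable def scl (c : Fin n → K) : MvPolynomial (Fin n) K →ₐ[K] MvPolynomial (Fin n) K :=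
  aeval fun j => C (c j) * X j

theorem coeff_scl (c : Fin n → K) (F : MvPolynomial (Fin n) K) (m : Fin n →₀ ℕ) :
    coeff m (scl c F) = (∏ j, c j ^ m j) * coeff m F := by
  classical
  induction F using MvPolynomial.induction_on' with
  | monomial u a =>
    have h1 : scl c (monomial u a) = monomial u ((∏ j, c j ^ u j) * a) := by
      unfold scl
      rw [aeval_monomial, Finsupp.prod_fintype _ _ (fun i => pow_zero _)]
      simp only [mul_pow]
      rw [Finset.prod_mul_distrib, monomial_eq, Finsupp.prod_fintype _ _ (fun i => pow_zero _)]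
      simp only [← C_pow, ← map_prod, algebraMap_eq]
      rw [C_mul]
      ring
    rw [h1, coeff_monomial, coeff_monomial]
    by_cases h : u = m
    · rw [if_pos h, if_pos h, h]
    · rw [if_neg h, if_neg h, mul_zero]
  | add p q hp hq => rw [map_add, coeff_add, coeff_add, hp, hq, mul_add]

theorem Th_act (τ : Equiv.Perm (Fin n)) (d : Fin n → ℤˣ) (ρ : PG n)
    (f : MvPolynomial (Fin n × Fin n) K) :
    Th τ (act d ρ.1 f) = scl (fun j => ((d j : ℤ) : K) * eps K ρ (τ j)) (Th τ f) := by
  have : (Th τ).comp (act (K := K) d ρ.1) =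
      (scl (fun j => ((d j : ℤ) : K) * eps K ρ (τ j))).comp (Th τ) := by
    refine MvPolynomial.algHom_ext fun p => ?_
    simp only [AlgHom.comp_apply, act, Th, scl, aeval_X, map_mul, algHom_C, algebraMap_eq]
    rw [vv_act]
    simp only [map_mul]
    ring
  exact congrArg (fun φ => φ f) this

/-- the group of row swaps and column signs -/
abbrev HG (n : ℕ) := (Fin n → ℤˣ) × PG n

/-- the character -/
noncomputable def chi (K : Type) [Field K] (A : Finset (Fin n)) (τ : Equiv.Perm (Fin n)) :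
    HG n →* K where
  toFun h := ∏ j ∈ A, (((h.1 j : ℤ) : K) * eps K h.2 (τ j))
  map_one' := by
    refine Finset.prod_eq_one fun j _ => ?_
    have : eps K (1 : PG n) (τ j) = 1 := by
      unfold eps
      show (-1 : K) ^ ((τ j : ℕ) + (τ j : ℕ)) = 1
      exact Even.neg_one_pow ⟨_, rfl⟩
    simp [this]
  map_mul' h h' := by
    rw [← Finset.prod_mul_distrib]
    refine Finset.prod_congr rfl fun j _ => ?_
    show (((h.1 j * h'.1 j : ℤˣ) : ℤ) : K) * eps K (h.2 * h'.2) (τ j) = _
    rw [eps_mul]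
    push_cast
    ring

theorem eigen (A : Finset (Fin n)) (τ : Equiv.Perm (Fin n)) (h : HG n)
    (f : MvPolynomial (Fin n × Fin n) K) : coeff (ind A) (Th τ (act h.1 h.2.1 f)) =
      chi K A τ h * coeff (ind A) (Th τ f) := by
  classical
  rw [Th_act, coeff_scl]
  congr 1
  show _ = ∏ j ∈ A, (((h.1 j : ℤ) : K) * eps K h.2 (τ j))
  rw [← Finset.prod_subset (subset_univ A)]
  · refine Finset.prod_congr rfl fun j hj => ?_
    rw [ind_apply, if_pos hj, pow_one]
  · intro j _ hj
    rw [ind_apply, if_neg hj, pow_zero]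

theorem act_act (h h' : HG n) (f : MvPolynomial (Fin n × Fin n) K) :
    act h.1 h.2.1 (act h'.1 h'.2.1 f) = act (h'.1 * h.1) (h.2 * h'.2).1 f := by
  have : (act (K := K) h.1 h.2.1).comp (act h'.1 h'.2.1) = act (h'.1 * h.1) (h.2 * h'.2).1 := by
    refine MvPolynomial.algHom_ext fun p => ?_
    simp only [AlgHom.comp_apply, act, aeval_X, map_mul, algHom_C, algebraMap_eq, Pi.mul_apply]
    show C _ * (C _ * X (h.2.1 (h'.2.1 p.1), p.2)) = C _ * X ((h.2 * h'.2).1 p.1, p.2)
    push_cast
    rw [map_mul]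
    show _ = _ * X (h.2.1 (h'.2.1 p.1), p.2)
    ring
  exact congrArg (fun φ => φ f) this

/-- the number of characters that occur is at most the number of images -/
theorem card_chars (S : Finset (MvPolynomial (Fin n × Fin n) K))
    (hS : ∀ f ∈ S, ∀ h : HG n, act h.1 h.2.1 f ∈ S) (T : Finset (HG n →* K))
    (hT : ∀ χ ∈ T, ∃ A τ, χ = chi K A τ ∧ ∃ f ∈ S, coeff (ind A) (Th τ f) ≠ 0) :
    T.card ≤ S.card := by
  classical
  choose! A τ hχ f hf hne using hT
  have hli : LinearIndependent K (fun χ : T => fun g : S =>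
      coeff (ind (A χ.1)) (Th (τ χ.1) g.1)) := by
    rw [Fintype.linearIndependent_iff]
    intro c hc χ₀
    have h1 : ∀ g : S, ∀ h : HG n, ∑ χ : T, c χ * coeff (ind (A χ.1)) (Th (τ χ.1) g.1) *
        χ.1 h = 0 := by
      intro g h
      have h2 := congrFun hc ⟨act h.1 h.2.1 g.1, hS _ g.2 h⟩
      simp only [Finset.sum_apply, Pi.smul_apply, smul_eq_mul, Pi.zero_apply] at h2
      rw [← h2]
      refine Finset.sum_congr rfl fun χ _ => ?_
      rw [eigen, ← hχ χ.1 χ.2]
      ring
    have h3 := linearIndependent_monoidHom (HG n) K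
    have h4 := h3.comp (fun χ : T => χ.1) Subtype.val_injective
    rw [Fintype.linearIndependent_iff] at h4
    have h5 := h4 (fun χ => c χ * coeff (ind (A χ.1)) (Th (τ χ.1) (f χ₀.1))) (by
      funext h
      have := h1 ⟨f χ₀.1, hf χ₀.1 χ₀.2⟩ h
      simp only [Finset.sum_apply, Pi.smul_apply, smul_eq_mul, Pi.zero_apply, Function.comp]
      exact this) χ₀
    exact (mul_eq_zero.1 h5).resolve_right (hne χ₀.1 χ₀.2)
  have h6 := hli.fintype_card_le_finrank
  rwa [Module.finrank_fintype_fun_eq_card, Fintype.card_coe, Fintype.card_coe] at h6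

end Pool.Agent.W941.VP
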