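import Mathlib
import Pool.Agent.W941.VP.Sym

/-! Counting part. -/

namespace Pool.Agent.W941.VP

open MvPolynomial Finset

set_option linter.unusedSectionVars false
set_option linter.unusedVariables false
set_option autoImplicit false

variable {K : Type} [Field K] {n : ℕ}

open Classical in
/-- permutations with a given image of a set -/
noncomputable def fib (A S : Finset (Fin n)) : Finset (Equiv.Perm (Fin n)) :=
  univ.filter fun τ => A.image τ = S

theorem fib_card_le (A S S' : Finset (Fin n)) (h : S.card = S'.card) :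
    (fib A S).card ≤ (fib A S').card := by
  classical
  obtain ⟨e⟩ : Nonempty ({x // x ∈ S} ≃ {x // x ∈ S'}) := by
    rw [← Fintype.card_eq]; simpa using h
  let π : Equiv.Perm (Fin n) := e.extendSubtype
  have hπ : S.image π = S' := by
    refine Finset.eq_of_subset_of_card_le ?_ ?_
    · intro x hx
      obtain ⟨y, hy, rfl⟩ := mem_image.1 hx
      exact e.extendSubtype_mem y hy
    · rw [card_image_of_injective _ π.injective, h]
  refine Finset.card_le_card_of_injOn (fun τ => π * τ) ?_ ?_
  · intro τ hτ
    have hτ' : A.image τ = S := (mem_filter.1 hτ).2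
    refine mem_coe.2 (mem_filter.2 ⟨mem_univ _, ?_⟩)
    rw [← hπ, ← hτ', image_image]
    rfl
  · intro τ _ τ' _ h'
    exact mul_left_cancel h'

theorem fib_card (A S : Finset (Fin n)) (h : S.card = A.card) :
    (fib A S).card * n.choose A.card = n.factorial := by
  classical
  have h1 : (univ : Finset (Equiv.Perm (Fin n))).card =
      ∑ S' ∈ powersetCard A.card (univ : Finset (Fin n)), (fib A S').card := by
    refine Finset.card_eq_sum_card_fiberwise (f := fun τ : Equiv.Perm (Fin n) => A.image τ) ?_
    intro τ _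
    refine mem_coe.2 (mem_powersetCard.2 ⟨subset_univ _, ?_⟩)
    exact card_image_of_injective _ τ.injective
  have h2 : ∀ S' ∈ powersetCard A.card (univ : Finset (Fin n)), (fib A S').card =
      (fib A S).card := by
    intro S' hS'
    have h3 := (mem_powersetCard.1 hS').2
    exact le_antisymm (fib_card_le _ _ _ (h3.trans h.symm)) (fib_card_le _ _ _ (h.trans h3.symm))
  rw [Finset.sum_congr rfl h2, Finset.sum_const, card_powersetCard, card_univ, card_univ,
    Fintype.card_fin, Fintype.card_perm, Fintype.card_fin, smul_eq_mul] at h1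
  rw [h1, mul_comm]

theorem choose_mono_half {n r s : ℕ} (hrs : r ≤ s) (hs : 2 * s ≤ n) : n.choose r ≤ n.choose s := by
  induction s, hrs using Nat.le_induction with
  | base => exact le_rfl
  | succ s hs' ih =>
    exact (ih (by omega)).trans (Nat.choose_le_succ_of_lt_half_left (by omega))

theorem choose_bal {n a : ℕ} (h1 : n < 3 * a) (h2 : 3 * a ≤ 2 * n) :
    n.choose ((n + 2) / 3) ≤ n.choose a := by
  rcases Nat.le_total (2 * a) n with h | h
  · exact choose_mono_half (by omega) h
  · rw [← Nat.choose_symm (show a ≤ n by omega)]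
    exact choose_mono_half (by omega) (by omega)

/-- the character sees the set -/
theorem chi_left (hK : (2 : K) ≠ 0) {A A' : Finset (Fin n)} {τ τ' : Equiv.Perm (Fin n)}
    (h : chi K A τ = chi K A' τ') : A = A' := by
  classical
  have hne : (1 : K) ≠ -1 := by
    intro h'
    apply hK
    linear_combination h'
  have key : ∀ (B : Finset (Fin n)) (σ : Equiv.Perm (Fin n)) (j : Fin n),
      chi K B σ (Function.update 1 j (-1), 1) = if j ∈ B then -1 else 1 := by
    intro B σ j
    show ∏ i ∈ B, (((Function.update (1 : Fin n → ℤˣ) j (-1) i : ℤ) : K) *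
      eps K (1 : PG n) (σ i)) = _
    have h1 : ∀ i, eps K (1 : PG n) (σ i) = 1 := by
      intro i
      unfold eps
      show (-1 : K) ^ ((σ i : ℕ) + (σ i : ℕ)) = 1
      exact Even.neg_one_pow ⟨_, rfl⟩
    by_cases hj : j ∈ B
    · rw [if_pos hj, Finset.prod_eq_single_of_mem j hj]
      · rw [h1]; simp
      · intro i _ hi
        rw [h1, Function.update_of_ne hi]; simp
    · rw [if_neg hj]
      refine Finset.prod_eq_one fun i hi => ?_
      have : i ≠ j := fun h' => hj (h' ▸ hi)
      rw [h1, Function.update_of_ne this]; simp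
  ext j
  have h1 := congrArg (fun χ => χ (Function.update 1 j (-1), 1)) h
  simp only [key] at h1
  by_cases hj : j ∈ A <;> by_cases hj' : j ∈ A'
  · simp [hj, hj']
  · rw [if_pos hj, if_neg hj'] at h1; exact absurd h1.symm hne
  · rw [if_neg hj, if_pos hj'] at h1; exact absurd h1 hne
  · simp [hj, hj']

/-- the swap of an odd row with the row before it -/
def osw (s s' : Fin n) (h : (s : ℕ) = s' + 1) (h' : (s' : ℕ) % 2 = 0) : PG n :=
  ⟨Equiv.swap s' s, fun i => by
    by_cases h1 : i = s'
    · rw [h1, Equiv.swap_apply_left]; omega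
    · by_cases h2 : i = s
      · rw [h2, Equiv.swap_apply_right]; omega
      · rw [Equiv.swap_apply_of_ne_of_ne h1 h2]⟩

theorem chi_osw (A : Finset (Fin n)) (τ : Equiv.Perm (Fin n)) (s s' : Fin n)
    (h : (s : ℕ) = s' + 1) (h' : (s' : ℕ) % 2 = 0) : chi K A τ (1, osw s s' h h') =
      (if τ.symm s' ∈ A then -1 else 1) * (if τ.symm s ∈ A then -1 else 1) := by
  classical
  have hss : s' ≠ s := fun h1 => by rw [h1] at h; omega
  show ∏ j ∈ A, ((((1 : Fin n → ℤˣ) j : ℤ) : K) * eps K (osw s s' h h') (τ j)) = _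
  have h1 : ∀ j, (((1 : Fin n → ℤˣ) j : ℤ) : K) * eps K (osw s s' h h') (τ j) =
      if j = τ.symm s' ∨ j = τ.symm s then -1 else 1 := by
    intro j
    rw [show (((1 : Fin n → ℤˣ) j : ℤ) : K) = 1 by simp, one_mul]
    unfold eps
    show (-1 : K) ^ (((Equiv.swap s' s (τ j) : Fin n) : ℕ) + (τ j : ℕ)) = _
    by_cases h2 : j = τ.symm s'
    · rw [if_pos (Or.inl h2), h2, Equiv.apply_symm_apply, Equiv.swap_apply_left]
      exact Odd.neg_one_pow ⟨s', by omega⟩
    · by_cases h3 : j = τ.symm s
      · rw [if_pos (Or.inr h3), h3, Equiv.apply_symm_apply, Equiv.swap_apply_right]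
        exact Odd.neg_one_pow ⟨s', by omega⟩
      · rw [if_neg (not_or.2 ⟨h2, h3⟩), Equiv.swap_apply_of_ne_of_ne]
        · exact Even.neg_one_pow ⟨_, rfl⟩
        · intro h4; exact h2 (by rw [← h4, Equiv.symm_apply_apply])
        · intro h4; exact h3 (by rw [← h4, Equiv.symm_apply_apply])
  simp only [h1]
  have h2 : τ.symm s' ≠ τ.symm s := fun h3 => hss (τ.symm.injective h3)
  have h3 : ∏ j ∈ A, (if j = τ.symm s' ∨ j = τ.symm s then (-1 : K) else 1) =
      ∏ j, (if j ∈ A then (if j = τ.symm s' ∨ j = τ.symm s then (-1 : K) else 1) else 1) := by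
    rw [Finset.prod_ite_mem, univ_inter]
  rw [h3, Finset.prod_eq_mul (τ.symm s') (τ.symm s) h2]
  · simp
  · intro c _ hc
    rw [if_neg (not_or.2 hc)]; simp
  · intro h4; exact absurd (mem_univ _) h4
  · intro h4; exact absurd (mem_univ _) h4

open Classical in
/-- permutations with a given character -/
theorem card_tau (hK : (2 : K) ≠ 0) (A : Finset (Fin n)) (χ : HG n →* K) :
    (univ.filter fun τ : Equiv.Perm (Fin n) => chi K A τ = χ).card * n.choose A.card ≤
      2 ^ ((n + 1) / 2) * n.factorial := by
  have hne : (1 : K) ≠ -1 := by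
    intro h'
    apply hK
    linear_combination h'
  set W := univ.filter fun τ : Equiv.Perm (Fin n) => chi K A τ = χ with hW
  set E : Finset (Fin n) := univ.filter fun s => (s : ℕ) % 2 = 0 with hE
  have hEc : E.card ≤ (n + 1) / 2 := by
    have h1 : E.card ≤ (Finset.range ((n + 1) / 2)).card := by
      refine Finset.card_le_card_of_injOn (fun s => (s : ℕ) / 2) ?_ ?_
      · intro s hs
        have := s.2
        have h2 := (mem_filter.1 (mem_coe.1 hs)).2
        exact mem_coe.2 (mem_range.2 (by show (s : ℕ) / 2 < _; omega))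
      · intro s hs t ht hst
        have h2 := (mem_filter.1 (mem_coe.1 hs)).2
        have h3 := (mem_filter.1 (mem_coe.1 ht)).2
        have hst' : (s : ℕ) / 2 = (t : ℕ) / 2 := hst
        ext
        omega
    simpa using h1
  have h1 : (W.image fun τ : Equiv.Perm (Fin n) => A.image τ).card ≤ 2 ^ ((n + 1) / 2) := by
    calc (W.image fun τ : Equiv.Perm (Fin n) => A.image τ).card ≤ E.powerset.card := by
          refine Finset.card_le_card_of_injOn (fun S => S ∩ E) ?_ ?_
          · intro S _; exact mem_coe.2 (mem_powerset.2 inter_subset_right)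
          · intro S hS S' hS' hSS'
            obtain ⟨τ, hτ, rfl⟩ := mem_image.1 (mem_coe.1 hS)
            obtain ⟨τ', hτ', rfl⟩ := mem_image.1 (mem_coe.1 hS')
            have h2 : chi K A τ = chi K A τ' := (mem_filter.1 hτ).2.trans (mem_filter.1 hτ').2.symm
            have h3 : ∀ s, s ∈ A.image τ ↔ τ.symm s ∈ A := by
              intro s
              constructor
              · intro hs
                obtain ⟨j, hj, rfl⟩ := mem_image.1 hs
                rwa [Equiv.symm_apply_apply]
              · intro hs; exact mem_image.2 ⟨_, hs, by simp⟩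
            have h3' : ∀ s, s ∈ A.image τ' ↔ τ'.symm s ∈ A := by
              intro s
              constructor
              · intro hs
                obtain ⟨j, hj, rfl⟩ := mem_image.1 hs
                rwa [Equiv.symm_apply_apply]
              · intro hs; exact mem_image.2 ⟨_, hs, by simp⟩
            have hev : ∀ s : Fin n, (s : ℕ) % 2 = 0 → (s ∈ A.image τ ↔ s ∈ A.image τ') := by
              intro s hs
              have h4 : s ∈ A.image τ ∩ E ↔ s ∈ A.image τ' ∩ E := by
                have : A.image τ ∩ E = A.image τ' ∩ E := hSS'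
                rw [this]
              have hsE : s ∈ E := mem_filter.2 ⟨mem_univ _, hs⟩
              simpa [hsE] using h4
            ext s
            rcases Nat.mod_two_eq_zero_or_one (s : ℕ) with hs | hs
            · exact hev s hs
            · let s' : Fin n := ⟨(s : ℕ) - 1, by have := s.2; omega⟩
              have hs' : (s' : ℕ) = (s : ℕ) - 1 := rfl
              have h5 := hev s' (by rw [hs']; omega)
              have h6 := congrArg (fun φ => φ (1, osw s s' (by rw [hs']; omega)
                (by rw [hs']; omega))) h2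
              simp only [chi_osw] at h6
              rw [h3, h3'] at h5 ⊢
              by_cases ha : τ.symm s' ∈ A
              · have ha' := h5.1 ha
                rw [if_pos ha, if_pos ha'] at h6
                by_cases hb : τ.symm s ∈ A <;> by_cases hb' : τ'.symm s ∈ A
                · simp [hb, hb']
                · rw [if_pos hb, if_neg hb'] at h6
                  exact absurd (by linear_combination h6) hne
                · rw [if_neg hb, if_pos hb'] at h6
                  exact absurd (by linear_combination -h6) hne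
                · simp [hb, hb']
              · have ha' := fun h => ha (h5.2 h)
                rw [if_neg ha, if_neg ha'] at h6
                by_cases hb : τ.symm s ∈ A <;> by_cases hb' : τ'.symm s ∈ A
                · simp [hb, hb']
                · rw [if_pos hb, if_neg hb'] at h6
                  exact absurd (by linear_combination -h6) hne
                · rw [if_neg hb, if_pos hb'] at h6
                  exact absurd (by linear_combination h6) hne
                · simp [hb, hb']
      _ = 2 ^ E.card := card_powerset E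
      _ ≤ 2 ^ ((n + 1) / 2) := Nat.pow_le_pow_right (by norm_num) hEc
  have h2 : W.card ≤ ∑ S ∈ W.image fun τ : Equiv.Perm (Fin n) => A.image τ, (fib A S).card := by
    rw [Finset.card_eq_sum_card_fiberwise (f := fun τ : Equiv.Perm (Fin n) => A.image τ)
      (t := W.image fun τ : Equiv.Perm (Fin n) => A.image τ) (fun τ hτ => mem_coe.2 (mem_image_of_mem _ hτ))]
    refine Finset.sum_le_sum fun S _ => Finset.card_le_card ?_
    intro τ hτ
    exact mem_filter.2 ⟨mem_univ _, (mem_filter.1 hτ).2⟩
  calc W.card * n.choose A.card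
      ≤ (∑ S ∈ W.image fun τ : Equiv.Perm (Fin n) => A.image τ, (fib A S).card) * n.choose A.card :=
        Nat.mul_le_mul_right _ h2
    _ = ∑ S ∈ W.image fun τ : Equiv.Perm (Fin n) => A.image τ, (fib A S).card * n.choose A.card := by
        rw [Finset.sum_mul]
    _ = ∑ S ∈ W.image fun τ : Equiv.Perm (Fin n) => A.image τ, n.factorial := by
        refine Finset.sum_congr rfl fun S hS => fib_card A S ?_
        obtain ⟨τ, _, rfl⟩ := mem_image.1 hS
        exact card_image_of_injective _ τ.injective
    _ = (W.image fun τ : Equiv.Perm (Fin n) => A.image τ).card * n.factorial := by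
        rw [Finset.sum_const, smul_eq_mul]
    _ ≤ _ := Nat.mul_le_mul_right _ h1

/-- **Main bound.** -/
theorem main_bound (hK : (2 : K) ≠ 0) (hn : 3 ≤ n) (l : List (MvPolynomial (Fin n × Fin n) K))
    (hl : Circ K n l) (hper : perm K n ∈ l) :
    n.choose ((n + 2) / 3) ≤ 2 ^ ((n + 1) / 2) * (images l).ncard := by
  classical
  have hfin : (images l).Finite := by
    have : images l = ⋃ f ∈ l.toFinset, ⋃ d : Fin n → ℤˣ, ⋃ ρ : PG n, {act d ρ.1 f} := by
      ext g
      simp only [images, Set.mem_ofPred_eq, Set.mem_iUnion, List.mem_toFinset,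
        Set.mem_singleton_iff]
      constructor
      · rintro ⟨f, hf, d, ρ, hρ, rfl⟩
        exact ⟨f, hf, d, ⟨ρ, hρ⟩, rfl⟩
      · rintro ⟨f, hf, d, ρ, rfl⟩
        exact ⟨f, hf, d, ρ.1, ρ.2, rfl⟩
    rw [this]
    refine Set.Finite.biUnion (Finset.finite_toSet _) fun f _ => ?_
    exact Set.finite_iUnion fun d => Set.finite_iUnion fun ρ => Set.finite_singleton _
  set S := hfin.toFinset with hS
  have hScl : ∀ f ∈ S, ∀ h : HG n, act h.1 h.2.1 f ∈ S := by
    intro f hf h
    rw [hS, Set.Finite.mem_toFinset] at hf ⊢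
    obtain ⟨f', hf', d, ρ, hρ, rfl⟩ := hf
    refine ⟨f', hf', d * h.1, (h.2 * ⟨ρ, hρ⟩ : PG n).1,
      (h.2 * (⟨ρ, hρ⟩ : PG n)).2, ?_⟩
    exact act_act h (d, ⟨ρ, hρ⟩) f'
  have hid : ∀ f ∈ l, f ∈ S := by
    intro f hf
    rw [hS, Set.Finite.mem_toFinset]
    refine ⟨f, hf, 1, 1, fun _ => rfl, ?_⟩
    have : act (K := K) (n := n) 1 1 = AlgHom.id K _ := by
      refine MvPolynomial.algHom_ext fun p => ?_
      simp [act]
    rw [this]; rfl
  let P : Finset (Fin n) × Equiv.Perm (Fin n) → Prop := fun x =>
    (n < 3 * x.1.card ∧ 3 * x.1.card ≤ 2 * n) ∧ ∃ f ∈ S, coeff (ind x.1) (Th x.2 f) ≠ 0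
  let T : Finset (HG n →* K) := (univ.filter P).image fun x => chi K x.1 x.2
  have hT : T.card ≤ S.card := by
    refine card_chars S hScl T fun χ hχ => ?_
    obtain ⟨x, hx, rfl⟩ := mem_image.1 hχ
    obtain ⟨_, f, hf, hne⟩ := (mem_filter.1 hx).2
    exact ⟨x.1, x.2, rfl, f, hf, hne⟩
  have hcard : ∀ A : Finset (Fin n), ∑ j, ind A j = A.card := by
    intro A
    simp only [ind_apply]
    simp
  have hall : ∀ τ : Equiv.Perm (Fin n), ∃ A, P (A, τ) := by
    intro τ
    by_contra hcon
    push Not at hcon
    have hbal : ∀ f ∈ l, ∀ m : Fin n →₀ ℕ, (∀ j, m j ≤ 1) → n < 3 * ∑ j, m j →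
        3 * ∑ j, m j ≤ 2 * n → coeff m (Th τ f) = 0 := by
      intro f hf m hm h1 h2
      obtain ⟨A, rfl⟩ := exists_ind hm
      rw [hcard] at h1 h2
      by_contra hne
      exact hcon A ⟨⟨h1, h2⟩, f, hid f hf, hne⟩
    have h1 := circ_big hn τ l hl hbal _ hper (ind univ) (fun j => by
      rw [ind_apply]; split_ifs <;> omega) (by rw [hcard, card_univ, Fintype.card_fin]; omega)
    exact Th_perm τ hK h1
  have hcov : (univ : Finset (Equiv.Perm (Fin n))) ⊆ T.biUnion fun χ =>
      univ.filter fun τ => ∃ A, (n < 3 * A.card ∧ 3 * A.card ≤ 2 * n) ∧ chi K A τ = χ := by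
    intro τ _
    obtain ⟨A, hA⟩ := hall τ
    refine mem_biUnion.2 ⟨chi K A τ, mem_image.2 ⟨(A, τ), mem_filter.2 ⟨mem_univ _, hA⟩, rfl⟩,
      mem_filter.2 ⟨mem_univ _, A, hA.1, rfl⟩⟩
  have hone : ∀ χ ∈ T, (univ.filter fun τ : Equiv.Perm (Fin n) => ∃ A,
      (n < 3 * A.card ∧ 3 * A.card ≤ 2 * n) ∧ chi K A τ = χ).card * n.choose ((n + 2) / 3) ≤
      2 ^ ((n + 1) / 2) * n.factorial := by
    intro χ hχ
    obtain ⟨x, hx, rfl⟩ := mem_image.1 hχ
    obtain ⟨⟨h1, h2⟩, _⟩ := (mem_filter.1 hx).2
    have h3 : (univ.filter fun τ : Equiv.Perm (Fin n) => ∃ A,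
        (n < 3 * A.card ∧ 3 * A.card ≤ 2 * n) ∧ chi K A τ = chi K x.1 x.2) ⊆
        univ.filter fun τ : Equiv.Perm (Fin n) => chi K x.1 τ = chi K x.1 x.2 := by
      intro τ hτ
      obtain ⟨A, _, hA⟩ := (mem_filter.1 hτ).2
      have := chi_left hK hA
      subst this
      exact mem_filter.2 ⟨mem_univ _, hA⟩
    calc _ ≤ (univ.filter fun τ : Equiv.Perm (Fin n) => chi K x.1 τ = chi K x.1 x.2).card *
          n.choose x.1.card := Nat.mul_le_mul (card_le_card h3) (choose_bal h1 h2)
      _ ≤ _ := card_tau hK x.1 _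
  have hfac : n.factorial * n.choose ((n + 2) / 3) ≤
      T.card * (2 ^ ((n + 1) / 2) * n.factorial) := by
    calc n.factorial * n.choose ((n + 2) / 3)
        = (univ : Finset (Equiv.Perm (Fin n))).card * n.choose ((n + 2) / 3) := by
          rw [card_univ, Fintype.card_perm, Fintype.card_fin]
      _ ≤ (∑ χ ∈ T, (univ.filter fun τ : Equiv.Perm (Fin n) => ∃ A,
            (n < 3 * A.card ∧ 3 * A.card ≤ 2 * n) ∧ chi K A τ = χ).card) *
            n.choose ((n + 2) / 3) :=
          Nat.mul_le_mul_right _ ((card_le_card hcov).trans card_biUnion_le)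
      _ = ∑ χ ∈ T, (univ.filter fun τ : Equiv.Perm (Fin n) => ∃ A,
            (n < 3 * A.card ∧ 3 * A.card ≤ 2 * n) ∧ chi K A τ = χ).card *
            n.choose ((n + 2) / 3) := by rw [Finset.sum_mul]
      _ ≤ ∑ χ ∈ T, (2 ^ ((n + 1) / 2) * n.factorial) := Finset.sum_le_sum hone
      _ = _ := by rw [Finset.sum_const, smul_eq_mul]
  have hSc : S.card = (images l).ncard := (Set.ncard_eq_toFinset_card _ hfin).symm
  have h4 : n.factorial * n.choose ((n + 2) / 3) ≤
      n.factorial * (2 ^ ((n + 1) / 2) * S.card) := by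
    calc _ ≤ T.card * (2 ^ ((n + 1) / 2) * n.factorial) := hfac
      _ ≤ S.card * (2 ^ ((n + 1) / 2) * n.factorial) := Nat.mul_le_mul_right _ hT
      _ = _ := by ring
  rw [← hSc]
  exact Nat.le_of_mul_le_mul_left h4 (Nat.factorial_pos n)

end Pool.Agent.W941.VP
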