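import Mathlib
import Pool.Agent.W941.VP.SymCount

/-! Explicit form of the bound. -/

namespace Pool.Agent.W941.VP

open MvPolynomial Finset

set_option linter.unusedSectionVars false
set_option linter.unusedVariables false
set_option autoImplicit false

variable {K : Type} [Field K] {n : ℕ}

theorem choose_third (q : ℕ) : 27 ^ q ≤ 4 ^ q * (3 * q + 1) * (3 * q).choose q := by
  induction q with
  | zero => simp
  | succ q ih =>
    have h1 : (3 * q + 3).choose (q + 1) * ((q + 1) * ((2 * q + 2) * (2 * q + 1))) =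
        (3 * q).choose q * ((3 * q + 3) * ((3 * q + 2) * (3 * q + 1))) := by
      have e1 := Nat.add_one_mul_choose_eq (3 * q + 2) q
      have e2 := Nat.choose_mul_succ_eq (3 * q + 1) q
      have e3 := Nat.choose_mul_succ_eq (3 * q) q
      have e4 : 3 * q + 1 + 1 - q = 2 * q + 2 := by omega
      have e5 : 3 * q + 1 - q = 2 * q + 1 := by omega
      rw [e4] at e2
      rw [e5] at e3
      calc (3 * q + 3).choose (q + 1) * ((q + 1) * ((2 * q + 2) * (2 * q + 1)))
          = ((3 * q + 2 + 1).choose (q + 1) * (q + 1)) * ((2 * q + 2) * (2 * q + 1)) := by ring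
        _ = ((3 * q + 2 + 1) * (3 * q + 2).choose q) * ((2 * q + 2) * (2 * q + 1)) := by rw [e1]
        _ = (3 * q + 3) * (((3 * q + 1 + 1).choose q * (2 * q + 2)) * (2 * q + 1)) := by ring
        _ = (3 * q + 3) * (((3 * q + 1).choose q * (3 * q + 1 + 1)) * (2 * q + 1)) := by rw [← e2]
        _ = (3 * q + 3) * ((3 * q + 2) * ((3 * q + 1).choose q * (2 * q + 1))) := by ring
        _ = (3 * q + 3) * ((3 * q + 2) * ((3 * q).choose q * (3 * q + 1))) := by rw [← e3]
        _ = _ := by ring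
    have h2 : 0 < (q + 1) * ((2 * q + 2) * (2 * q + 1)) * (3 * q + 1) := by positivity
    refine Nat.le_of_mul_le_mul_left (c := _) ?_ h2
    have h3 : 27 * ((q + 1) * ((2 * q + 2) * (2 * q + 1)) * (3 * q + 1)) ≤
        4 * ((3 * q + 4) * ((3 * q + 3) * ((3 * q + 2) * (3 * q + 1)))) := by
      nlinarith [sq_nonneg (q : ℤ), Nat.zero_le q, Nat.zero_le (q ^ 2), Nat.zero_le (q ^ 3),
        Nat.zero_le (q ^ 4)]
    calc (q + 1) * ((2 * q + 2) * (2 * q + 1)) * (3 * q + 1) * 27 ^ (q + 1)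
        = (27 * ((q + 1) * ((2 * q + 2) * (2 * q + 1)) * (3 * q + 1))) * 27 ^ q := by ring
      _ ≤ (27 * ((q + 1) * ((2 * q + 2) * (2 * q + 1)) * (3 * q + 1))) *
          (4 ^ q * (3 * q + 1) * (3 * q).choose q) := Nat.mul_le_mul_left _ ih
      _ = 27 * ((q + 1) * ((2 * q + 2) * (2 * q + 1)) * (3 * q + 1)) * (3 * q + 1) *
          (4 ^ q * (3 * q).choose q) := by ring
      _ ≤ 4 * ((3 * q + 4) * ((3 * q + 3) * ((3 * q + 2) * (3 * q + 1)))) * (3 * q + 1) *
          (4 ^ q * (3 * q).choose q) := by gcongr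
      _ = 4 ^ (q + 1) * (3 * q + 4) * (3 * q + 1) *
          ((3 * q).choose q * ((3 * q + 3) * ((3 * q + 2) * (3 * q + 1)))) := by ring
      _ = 4 ^ (q + 1) * (3 * q + 4) * (3 * q + 1) *
          ((3 * q + 3).choose (q + 1) * ((q + 1) * ((2 * q + 2) * (2 * q + 1)))) := by rw [h1]
      _ = (q + 1) * ((2 * q + 2) * (2 * q + 1)) * (3 * q + 1) *
          (4 ^ (q + 1) * (3 * (q + 1) + 1) * (3 * (q + 1)).choose (q + 1)) := by
        rw [show 3 * (q + 1) + 1 = 3 * q + 4 by ring, show 3 * (q + 1) = 3 * q + 3 by ring]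
        ring

theorem choose_third' (n : ℕ) : (3 * (n / 3)).choose (n / 3) ≤ n.choose ((n + 2) / 3) := by
  obtain ⟨q, r, hr, rfl⟩ : ∃ q r, r < 3 ∧ n = 3 * q + r :=
    ⟨n / 3, n % 3, Nat.mod_lt _ (by norm_num), by omega⟩
  have h1 : (3 * q + r) / 3 = q := by omega
  rw [h1]
  interval_cases r
  · rw [show (3 * q + 0 + 2) / 3 = q by omega]; simp
  · rw [show (3 * q + 1 + 2) / 3 = q + 1 by omega, Nat.choose_succ_succ' (3 * q) q]
    exact Nat.le_add_right _ _
  · rw [show (3 * q + 2 + 2) / 3 = q + 1 by omega, Nat.choose_succ_succ' (3 * q + 1) q]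
    exact (Nat.choose_le_choose q (Nat.le_succ _)).trans (Nat.le_add_right _ _)

theorem expl (n : ℕ) : (4 / 3 : ℝ) ^ n * 2 ^ ((n + 1) / 2) ≤
    6 * (n + 1) * (n.choose ((n + 2) / 3) : ℝ) := by
  have h1 : (27 / 4 : ℝ) ^ (n / 3) ≤ (n + 1) * (n.choose ((n + 2) / 3) : ℝ) := by
    have h2 : ((27 : ℝ) ^ (n / 3)) ≤ 4 ^ (n / 3) * (3 * (n / 3 : ℕ) + 1) *
        ((3 * (n / 3)).choose (n / 3) : ℕ) := by exact_mod_cast choose_third (n / 3)
    have h3 : (((3 * (n / 3)).choose (n / 3) : ℕ) : ℝ) ≤ (n.choose ((n + 2) / 3) : ℕ) := by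
      exact_mod_cast choose_third' n
    have h4 : (3 * ((n / 3 : ℕ) : ℝ) + 1) ≤ n + 1 := by
      have : 3 * (n / 3) ≤ n := Nat.mul_div_le n 3
      have : ((3 * (n / 3) : ℕ) : ℝ) ≤ n := by exact_mod_cast this
      push_cast at this
      linarith
    rw [div_pow, div_le_iff₀ (by positivity)]
    calc (27 : ℝ) ^ (n / 3) ≤ 4 ^ (n / 3) * (3 * (n / 3 : ℕ) + 1) *
          ((3 * (n / 3)).choose (n / 3) : ℕ) := h2
      _ ≤ 4 ^ (n / 3) * (n + 1) * (n.choose ((n + 2) / 3) : ℕ) := by gcongr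
      _ = _ := by ring
  obtain ⟨p, r, hr, rfl⟩ : ∃ p r, r < 6 ∧ n = 6 * p + r :=
    ⟨n / 6, n % 6, Nat.mod_lt _ (by norm_num), by omega⟩
  have key : (4 / 3 : ℝ) ^ (6 * p + r) * 2 ^ ((6 * p + r + 1) / 2) ≤
      6 * (27 / 4 : ℝ) ^ ((6 * p + r) / 3) := by
    have h5 : ((4 / 3 : ℝ) ^ 6 * 2 ^ 3) ^ p ≤ ((27 / 4 : ℝ) ^ 2) ^ p := by
      refine pow_le_pow_left₀ (by positivity) ?_ p
      norm_num
    have h6 : (0 : ℝ) < (32768 / 729 : ℝ) ^ p := by positivity
    have e1 : ∀ a b : ℕ, (4 / 3 : ℝ) ^ (6 * p + a) * 2 ^ (3 * p + b) =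
        ((4 / 3 : ℝ) ^ 6 * 2 ^ 3) ^ p * ((4 / 3) ^ a * 2 ^ b) := by
      intro a b
      rw [pow_add, pow_add, pow_mul, pow_mul, mul_pow]
      ring
    have e2 : ∀ a : ℕ, (27 / 4 : ℝ) ^ (2 * p + a) = ((27 / 4 : ℝ) ^ 2) ^ p * (27 / 4) ^ a := by
      intro a
      rw [pow_add, pow_mul]
    interval_cases r
    · rw [show (6 * p + 0 + 1) / 2 = 3 * p + 0 by omega, show (6 * p + 0) / 3 = 2 * p + 0 by omega,
        e1, e2]
      norm_num at h5 ⊢
      linarith
    · rw [show (6 * p + 1 + 1) / 2 = 3 * p + 1 by omega, show (6 * p + 1) / 3 = 2 * p + 0 by omega,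
        e1, e2]
      norm_num at h5 ⊢
      linarith
    · rw [show (6 * p + 2 + 1) / 2 = 3 * p + 1 by omega, show (6 * p + 2) / 3 = 2 * p + 0 by omega,
        e1, e2]
      norm_num at h5 ⊢
      linarith
    · rw [show (6 * p + 3 + 1) / 2 = 3 * p + 2 by omega, show (6 * p + 3) / 3 = 2 * p + 1 by omega,
        e1, e2]
      norm_num at h5 ⊢
      linarith
    · rw [show (6 * p + 4 + 1) / 2 = 3 * p + 2 by omega, show (6 * p + 4) / 3 = 2 * p + 1 by omega,
        e1, e2]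
      norm_num at h5 ⊢
      linarith
    · rw [show (6 * p + 5 + 1) / 2 = 3 * p + 3 by omega, show (6 * p + 5) / 3 = 2 * p + 1 by omega,
        e1, e2]
      norm_num at h5 ⊢
      linarith
  calc _ ≤ 6 * (27 / 4 : ℝ) ^ ((6 * p + r) / 3) := key
    _ ≤ 6 * (((6 * p + r : ℕ) + 1) * ((6 * p + r).choose ((6 * p + r + 2) / 3) : ℝ)) := by
        gcongr
    _ = _ := by ring

theorem images_finite (l : List (MvPolynomial (Fin n × Fin n) K)) : (images l).Finite := by
  classical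
  have : images l = ⋃ f ∈ l.toFinset, ⋃ d : Fin n → ℤˣ, ⋃ ρ : PG n, {act d ρ.1 f} := by
    ext g
    simp only [images, Set.mem_ofPred_eq, Set.mem_iUnion, List.mem_toFinset,
      Set.mem_singleton_iff]
    constructor
    · rintro ⟨f, hf, d, ρ, hρ, rfl⟩
      exact ⟨f, hf, d, ⟨ρ, hρ⟩, rfl⟩
    · rintro ⟨f, hf, d, ρ, rfl⟩
      exact ⟨f, hf, d, ρ.1, ρ.2, rfl⟩
  rw [this]
  refine Set.Finite.biUnion (Finset.finite_toSet _) fun f _ => ?_
  exact Set.finite_iUnion fun d => Set.finite_iUnion fun ρ => Set.finite_singleton _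

theorem images_le (l : List (MvPolynomial (Fin n × Fin n) K)) (B : ℕ)
    (h : ∀ f ∈ l, (images [f]).ncard ≤ B) : (images l).ncard ≤ l.length * B := by
  induction l with
  | nil =>
    have : images ([] : List (MvPolynomial (Fin n × Fin n) K)) = ∅ := by
      ext g; simp [images]
    simp [this]
  | cons f l ih =>
    have h1 : images (f :: l) ⊆ images [f] ∪ images l := by
      rintro g ⟨f', hf', d, ρ, hρ, rfl⟩
      rcases List.mem_cons.1 hf' with rfl | hf'
      · exact Or.inl ⟨f', List.mem_singleton_self _, d, ρ, hρ, rfl⟩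
      · exact Or.inr ⟨f', hf', d, ρ, hρ, rfl⟩
    calc (images (f :: l)).ncard ≤ (images [f] ∪ images l).ncard :=
          Set.ncard_le_ncard h1 ((images_finite _).union (images_finite _))
      _ ≤ (images [f]).ncard + (images l).ncard := Set.ncard_union_le _ _
      _ ≤ B + l.length * B := Nat.add_le_add (h f List.mem_cons_self)
          (ih fun f' hf' => h f' (List.mem_cons_of_mem _ hf'))
      _ = (f :: l).length * B := by rw [List.length_cons]; ring

theorem sym_main (hK : (2 : K) ≠ 0) (hn : 3 ≤ n) (l : List (MvPolynomial (Fin n × Fin n) K))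
    (hl : Circ K n l) (hper : perm K n ∈ l) :
    n.choose ((n + 2) / 3) ≤ 2 ^ ((n + 1) / 2) * (images l).ncard ∧
    (4 / 3 : ℝ) ^ n ≤ 6 * (n + 1) * (images l).ncard ∧
    (∃ f ∈ l, (4 / 3 : ℝ) ^ n ≤ 6 * (n + 1) * l.length * (images [f]).ncard) ∧
    (images l ⊆ {f | f ∈ l} → (4 / 3 : ℝ) ^ n ≤ 6 * (n + 1) * l.length) := by
  classical
  have h1 := main_bound hK hn l hl hper
  have h2 : (4 / 3 : ℝ) ^ n ≤ 6 * (n + 1) * (images l).ncard := by
    have h3 : (n.choose ((n + 2) / 3) : ℝ) ≤ 2 ^ ((n + 1) / 2) * (images l).ncard := by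
      exact_mod_cast h1
    have h4 := expl n
    have h5 : (0 : ℝ) < 2 ^ ((n + 1) / 2) := by positivity
    refine le_of_mul_le_mul_right ?_ h5
    calc (4 / 3 : ℝ) ^ n * 2 ^ ((n + 1) / 2) ≤
          6 * (n + 1) * (n.choose ((n + 2) / 3) : ℝ) := h4
      _ ≤ 6 * (n + 1) * (2 ^ ((n + 1) / 2) * (images l).ncard) := by gcongr
      _ = _ := by ring
  refine ⟨h1, h2, ?_, fun hcl => ?_⟩
  · have hne : l ≠ [] := List.ne_nil_of_mem hper
    obtain ⟨f, hf, hmax⟩ : ∃ f ∈ l, ∀ g ∈ l, (images [g]).ncard ≤ (images [f]).ncard := by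
      obtain ⟨f, hf, h⟩ := l.toFinset.exists_max_image (fun f => (images [f]).ncard)
        ⟨_, List.mem_toFinset.2 hper⟩
      exact ⟨f, List.mem_toFinset.1 hf, fun g hg => h g (List.mem_toFinset.2 hg)⟩
    refine ⟨f, hf, h2.trans ?_⟩
    have h3 := images_le l _ hmax
    have h4 : ((images l).ncard : ℝ) ≤ l.length * (images [f]).ncard := by exact_mod_cast h3
    calc 6 * ((n : ℝ) + 1) * (images l).ncard ≤ 6 * (n + 1) * (l.length * (images [f]).ncard) := by
          gcongr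
      _ = _ := by ring
  · have h3 : (images l).ncard ≤ l.length := by
      have hsub : images l ⊆ (l.toFinset : Set (MvPolynomial (Fin n × Fin n) K)) :=
        fun g hg => Finset.mem_coe.2 (List.mem_toFinset.2 (hcl hg))
      calc (images l).ncard ≤ (l.toFinset : Set (MvPolynomial (Fin n × Fin n) K)).ncard :=
            Set.ncard_le_ncard hsub (Finset.finite_toSet _)
        _ = l.toFinset.card := Set.ncard_coe_finset _
        _ ≤ l.length := List.toFinset_card_le _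
    refine h2.trans ?_
    have h4 : ((images l).ncard : ℝ) ≤ l.length := by exact_mod_cast h3
    gcongr

end Pool.Agent.W941.VP
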